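import Pool.Agent.LPW.Defs

/-!
# Squad LPW, block S: integral zeros of a power series lie on few algebraic curves

THEOREM (STP). For `K` and `ε > 0` there are `d`, `C` such that for every non-zero power series `H`
over `ℤ_p` in two variables whose coefficients are dominated by those of degree at most `K`, the
integral points of height at most `N` on `H = 0` in a residue class modulo `p ^ 3` lie on at most
`C N ^ ε` algebraic curves of degree at most `d`.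
-/

set_option autoImplicit false

open Polynomial

namespace Pool.Agent.LPW

/-- DIV (60 lines). Division with remainder modulo a power of `a`.
PROOF. Induction on `M`. `M = 0`: `q = r = 0`, `e = g` (`P₀ ≠ 0` has degree `> ⊥`). Step: given
`g = q P + r + a ^ M e` with `P = P₀ + a P₁`, divide `e` by the monic `P₀`:
`e = q' P₀ + r' = q' P + r' - a q' P₁`, so
`g = (q + a ^ M q') P + (r + a ^ M r') + a ^ (M + 1) (- q' P₁)`. -/
def DivStmt : Prop := ∀ (A : Type) [CommRing A] [Nontrivial A] (a : A) (P₀ P₁ : A[X]), P₀.Monic →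
  ∀ (M : ℕ) (g : A[X]), ∃ q r e : A[X],
    g = q * (P₀ + C a * P₁) + r + C (a ^ M) * e ∧ r.degree < P₀.degree

/-- SUM (60 lines). Sums of the first coordinates of distinct pairs.
PROOF. Induction on `L`, or: for an injective `τ` put `c l` = the `l`-th value in increasing order
of the `(τ a).1` (sort); at most `m l` elements `a` have `(τ a).1 < l`, so the `l`-th value in
increasing order is at least `⌊l / m⌋`. Induction: remove an `a` with maximal `(τ a).1`; it is at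
least `⌊(L - 1) / m⌋`, since otherwise all `L` pairs lie in `{0, ..., ⌊(L - 1) / m⌋ - 1} × Fin m`,
a set with at most `L - 1` elements. -/
def SumStmt : Prop := ∀ (m L : ℕ) (τ : Fin L → ℕ × Fin m), Function.Injective τ →
  ee m L ≤ ∑ a, (τ a).1

/-- DET (150 lines). Divisibility of a determinant.
PROOF. `r a = ∑_{i, j < m} c_{a, i, j} Y₁ ^ i Y₂ ^ j` (outer variable `Y₂`). To get powers of `q₀`
expand in `x = Y₁ - η`: the polynomial `(r a).map (taylor)`, or: `(coeff j (r a)).eval (η + q₀ ξ) =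
∑_i c'_{a, i, j} (q₀ ξ) ^ i` with `c'` the Taylor coefficients at `η` (`Polynomial.taylor`,
`Polynomial.taylor_eval`, `eval_eq_sum_range`). So the row `a` of the matrix is
`∑_{i, j} (c'_{a, i, j} q₀ ^ i) E_{i, j}` with the vectors `E_{i, j} = (ξ_b ^ i y_b ^ j)_b`. The
determinant is multilinear and alternating in the rows (`MultilinearMap.map_sum` /
`Matrix.det_sum`-type lemmas, or `Matrix.detRowAlternating`): it is the sum over the functions `τ`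
from `Fin L` to the pairs `(i, j)`, `j < m`, `i ≤ I` (a common bound), of
`∏ a (c'_{a, τ a} q₀ ^ (τ a).1)` times the determinant with the rows `E_{τ a}`, which is `0` unless
`τ` is injective; for injective `τ` the exponent `∑ (τ a).1` is at least `ee m L` (SUM). -/
def DetStmt : Prop := SumStmt → ∀ (A : Type) [CommRing A] (q₀ : A) (m L : ℕ), 0 < m →
  ∀ (r : Fin L → A[X][X]), (∀ a, (r a).natDegree < m) → ∀ (η : A) (ξ y : Fin L → A),
    q₀ ^ ee m L ∣ (Matrix.of fun a b =>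
      ((r a).map (evalRingHom (η + q₀ * ξ b))).eval (y b)).det

/-- The conclusion of DET. -/
def DetConcl : Prop := ∀ (A : Type) [CommRing A] (q₀ : A) (m L : ℕ), 0 < m →
  ∀ (r : Fin L → A[X][X]), (∀ a, (r a).natDegree < m) → ∀ (η : A) (ξ y : Fin L → A),
    q₀ ^ ee m L ∣ (Matrix.of fun a b =>
      ((r a).map (evalRingHom (η + q₀ * ξ b))).eval (y b)).det

/-- ABS (120 lines). Integral points in one strip lie on an algebraic curve (abstract form).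
PROOF. Enumerate `Z` as `P : Fin n → (Fin 2 → ℤ)`. By `LUB.DepStmt` (for `S = ℤ`, `L a b` = the
monomial `a` at `P b`) it is enough that all `L × L` minors vanish. Such a minor
`Δ = det ((P (J b) 0) ^ (e a 0) (P (J b) 1) ^ (e a 1))` is an integer with
`|Δ| ≤ L! N ^ (∑ a, (e a 0 + e a 1)) < p ^ (k ee)` (every product in the expansion has absolute
value at most `N ^ ∑`), and modulo `p ^ (k ee)` it is congruent, in `ℤ_p`, to the determinant of the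
values of the `r a` (determinants of congruent matrices are congruent), which is divisible by
`(p ^ k) ^ ee` by DET. So `p ^ (k ee)` divides `Δ` in `ℤ_p`, hence in `ℤ`, and `Δ = 0`. -/
def AbsStmt : Prop := DetConcl → LUB.DepStmt → ∀ (p : ℕ) [Fact p.Prime] (m L k N : ℕ), 0 < m →
  ∀ (e : Fin L → Fin 2 → ℕ),
  L.factorial * N ^ (∑ a, (e a 0 + e a 1)) < p ^ (k * ee m L) → ∀ (Z : Finset (Fin 2 → ℤ)),
  (∀ P ∈ Z, ∀ i, |P i| ≤ N) →
  (∃ (r : Fin L → ℤ_[p][X][X]) (η : ℤ_[p]), (∀ a, (r a).natDegree < m) ∧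
    ∀ P ∈ Z, ∃ ξ y : ℤ_[p], ∀ a, (p : ℤ_[p]) ^ (k * ee m L) ∣
      ((r a).map (evalRingHom (η + (p : ℤ_[p]) ^ k * ξ))).eval y -
        (((P 0) ^ (e a 0) * (P 1) ^ (e a 1) : ℤ) : ℤ_[p])) →
  ∃ c : Fin L → ℤ, c ≠ 0 ∧ ∀ P ∈ Z, ∑ a, c a * ((P 0) ^ (e a 0) * (P 1) ^ (e a 1)) = 0

/-- The conclusion of ABS. -/
def AbsConcl : Prop := ∀ (p : ℕ) [Fact p.Prime] (m L k N : ℕ), 0 < m →
  ∀ (e : Fin L → Fin 2 → ℕ),
  L.factorial * N ^ (∑ a, (e a 0 + e a 1)) < p ^ (k * ee m L) → ∀ (Z : Finset (Fin 2 → ℤ)),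
  (∀ P ∈ Z, ∀ i, |P i| ≤ N) →
  (∃ (r : Fin L → ℤ_[p][X][X]) (η : ℤ_[p]), (∀ a, (r a).natDegree < m) ∧
    ∀ P ∈ Z, ∃ ξ y : ℤ_[p], ∀ a, (p : ℤ_[p]) ^ (k * ee m L) ∣
      ((r a).map (evalRingHom (η + (p : ℤ_[p]) ^ k * ξ))).eval y -
        (((P 0) ^ (e a 0) * (P 1) ^ (e a 1) : ℤ) : ℤ_[p])) →
  ∃ c : Fin L → ℤ, c ≠ 0 ∧ ∀ P ∈ Z, ∑ a, c a * ((P 0) ^ (e a 0) * (P 1) ^ (e a 1)) = 0

/-- TRN (100 lines). Truncation of the value of a power series.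
PROOF. `φ₀` and `φ₁` are `ℤ_p`-linear ring homomorphisms; with `g = ∑_{i < M} g_i X ^ i + X ^ M g'`
one gets `φ₀ g = ∑_{i < M} g_i (p x₀) ^ i + (p x₀) ^ M φ₀ g'`. Apply this to
`H = ∑_{j < M} C (coeff j H) X ^ j + X ^ M H'` and the coefficients. -/
def TrnStmt : Prop := ∀ (p : ℕ) [Fact p.Prime] (H : PowerSeries (PowerSeries ℤ_[p]))
  (x₀ x₁ : ℤ_[p]), Zero H x₀ x₁ → ∀ M : ℕ, (p : ℤ_[p]) ^ M ∣
    ∑ j ∈ Finset.range M, ∑ i ∈ Finset.range M, hc H i j * ((p : ℤ_[p]) * x₀) ^ i *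
      ((p : ℤ_[p]) * x₁) ^ j

/-- NRM (100 lines). Normalization of the coefficients.
PROOF. Let `(k, l)`, `k + l ≤ K`, be a pair for which `‖hc H k l‖ p ^ (- (k + l))` is maximal among
the pairs with `k + l ≤ K`. It is non-zero (otherwise `H = 0` by `Dom`), so `hc H k l * p ^ (k + l) =
p ^ κ * unit` (`PadicInt.unitCoeff_spec`). For `i + j ≤ K` the element `hc H i j * p ^ (i + j)` has
norm at most `p ^ (- κ)`, so it is divisible by `p ^ κ`. For `i + j > K` let `(k', l')` be a pair with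
`k' + l' ≤ K` that dominates `(i, j)`: `‖hc H i j‖ p ^ (- (i + j)) ≤ ‖hc H k' l'‖ p ^ (- (i + j)) ≤
p ^ (- (i + j - K)) ‖hc H k' l'‖ p ^ (- (k' + l')) ≤ p ^ (- (i + j - K)) p ^ (- κ)`. -/
def NrmStmt : Prop := ∀ (p : ℕ) [Fact p.Prime] (K : ℕ) (H : PowerSeries (PowerSeries ℤ_[p])),
  H ≠ 0 → Dom K H → ∃ (κ : ℕ) (h : ℕ → ℕ → ℤ_[p]),
    (∀ i j, hc H i j * (p : ℤ_[p]) ^ (i + j) = (p : ℤ_[p]) ^ κ * h i j) ∧
    (∃ k l, k + l ≤ K ∧ IsUnit (h k l)) ∧ ∀ i j, (p : ℤ_[p]) ^ (i + j - K) ∣ h i j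

/-- LED (150 lines). The leading term after a change of coordinates.
PROOF. Put `e = K + 1` and `T_{i, j} = (Y₁ + Y₂ ^ e) ^ i Y₂ ^ j` in `ℤ_p[Y₁][Y₂]` (outer variable
`Y₂`), monic in `Y₂` of degree `e i + j`. Let `I` be the set of the pairs `(i, j)` with `h i j` a
unit; then `i + j ≤ K` (otherwise `p` divides `h i j`), `I` is not empty, and the numbers `e i + j`,
`(i, j) ∈ I`, are different (`j ≤ K < e`). Let `m` be the largest, attained at `(k, l)`;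
`m ≤ e K + K ≤ (K + 1) ^ 2`. Then `P₀ = (h k l)⁻¹ ∑_{(i, j) ∈ I} h i j T_{i, j}` is monic of degree
`m`. For given `M` (and `M' = κ + M + K + 1`) let
`P₁ = (h k l)⁻¹ ∑_{i, j < M', (i, j) ∉ I} (h i j / p) T_{i, j}` (a non-unit of `ℤ_p` is divisible by
`p`), so `P₀ + p P₁ = (h k l)⁻¹ ∑_{i, j < M'} h i j T_{i, j}` (`M' > K`). At
`Y₁ = x₀ - x₁ ^ e`, `Y₂ = x₁` the value of `T_{i, j}` is `x₀ ^ i x₁ ^ j`. By TRN (with `M'`)
`∑_{i, j < M'} hc H i j p ^ (i + j) x₀ ^ i x₁ ^ j = p ^ κ ∑ h i j x₀ ^ i x₁ ^ j` is divisible by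
`p ^ M'`, so `∑_{i, j < M'} h i j x₀ ^ i x₁ ^ j` is divisible by `p ^ M`. -/
def LedStmt : Prop := TrnStmt → NrmStmt → ∀ (p : ℕ) [Fact p.Prime] (K : ℕ)
  (H : PowerSeries (PowerSeries ℤ_[p])), H ≠ 0 → Dom K H → ∃ m ≤ (K + 1) ^ 2, ∀ M : ℕ,
    ∃ P₀ P₁ : ℤ_[p][X][X], P₀.Monic ∧ P₀.natDegree = m ∧ ∀ x₀ x₁ : ℤ_[p], Zero H x₀ x₁ →
      (p : ℤ_[p]) ^ M ∣ ((P₀ + C (C (p : ℤ_[p])) * P₁).map
        (evalRingHom (x₀ - x₁ ^ (K + 1)))).eval x₁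

/-- The conclusion of LED. -/
def LedConcl : Prop := ∀ (p : ℕ) [Fact p.Prime] (K : ℕ)
  (H : PowerSeries (PowerSeries ℤ_[p])), H ≠ 0 → Dom K H → ∃ m ≤ (K + 1) ^ 2, ∀ M : ℕ,
    ∃ P₀ P₁ : ℤ_[p][X][X], P₀.Monic ∧ P₀.natDegree = m ∧ ∀ x₀ x₁ : ℤ_[p], Zero H x₀ x₁ →
      (p : ℤ_[p]) ^ M ∣ ((P₀ + C (C (p : ℤ_[p])) * P₁).map
        (evalRingHom (x₀ - x₁ ^ (K + 1)))).eval x₁

/-- ENU (60 lines). Enumeration of the monomials of degree at most `d`.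
PROOF. The set `{(i, j) | i + j ≤ d}` is the union over `c ≤ d` of the antidiagonals
(`Finset.antidiagonal c`, of cardinality `c + 1`); take any bijection with `Fin (Ld d)`. -/
def EnuStmt : Prop := ∀ d : ℕ, ∃ e : Fin (Ld d) → Fin 2 → ℕ, Function.Injective e ∧
  (∀ a, e a 0 + e a 1 ≤ d) ∧ ∑ a, (e a 0 + e a 1) = Sd d

/-- NUM (120 lines). Choice of the degree and of the depth of the strips.
PROOF. `Sd d ≤ (d + 1) ^ 3`, `Ld d = (d + 1) (d + 2) / 2 ≥ (d + 1) ^ 2 / 2`, and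
`ee m L ≥ ∑_{l < L} (l / m - 1) = L (L - 1) / (2 m) - L` (real division); so
`ee m (Ld d) ≥ (d + 1) ^ 4 / (16 m)` for large `d`, and `Sd d ≤ ε ee m (Ld d)` for large `d`; fix such
a `d` with `E = ee m (Ld d) > 0`, and let `W = (Ld d)! N ^ (Sd d) ≥ 1`. Let `k` be minimal with
`W < p ^ (k E)`. Then `k ≥ 1` and `p ^ ((k - 1) E) ≤ W`, so
`p ^ k ≤ p W ^ (1 / E) ≤ p (Ld d)! N ^ (Sd d / E) ≤ p (Ld d)! N ^ ε`. -/
def NumStmt : Prop := ∀ (p m : ℕ), p.Prime → 0 < m → ∀ ε : ℝ, 0 < ε → ∃ (d : ℕ) (B : ℝ),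
  ∀ N : ℕ, 1 ≤ N → ∃ k : ℕ, (Ld d).factorial * N ^ Sd d < p ^ (k * ee m (Ld d)) ∧
    (p : ℝ) ^ k ≤ B * (N : ℝ) ^ ε

/-- STP (STRONG, 250 lines). The covering by algebraic curves.
PROOF. Let `m = (K + 1) ^ 2 + 1`, `d`, `B` from NUM for `p`, `m`, `ε`, `e` from ENU for `d`,
`L = Ld d`. For `N` take `k` from NUM and put `M = k ee m L + 1`. Let `m' ≤ (K + 1) ^ 2`, `P₀`, `P₁`
be from LED for `M`, `P = P₀ + p P₁`. If `m' = 0`, then `P₀ = 1` and the value of `P` at a zero is a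
unit divisible by `p`, so there is no zero and nothing to prove (`𝓕 = ∅`). Let `m' > 0`. For every
`a < L` let `g a = (s₁ + p ^ 3 (Y₁ + Y₂ ^ (K + 1))) ^ (e a 0) (t₁ + p ^ 3 Y₂) ^ (e a 1)` in
`ℤ_p[Y₁][Y₂]`; by DIV (`A = ℤ_p[Y₁]`, `a = C p`) `g a = q P + r a + p ^ M g'` with
`deg (r a) < m'`, so `natDegree (r a) < m`. A point `Q` of `Z` is `(s₁ + p ^ 3 x₀, t₁ + p ^ 3 x₁)`; at
`y₁ = x₀ - x₁ ^ (K + 1)`, `y₂ = x₁` the value of `g a` is the monomial `a` at `Q`, and `p ^ M` divides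
the value of `P`: so the value of `r a` is congruent to the monomial modulo `p ^ M`. Sort the points
of `Z` by the residue `η` of `y₁` modulo `p ^ k` (`p ^ k` strips, `PadicInt.appr` or `toZModPow`):
`y₁ = η + p ^ k ξ`. By ABS for every strip there is `c ≠ 0` such that the polynomial
`Φ = ∑ c a X₀ ^ (e a 0) X₁ ^ (e a 1)` vanishes at the points of the strip; `Φ ≠ 0` since the
exponents are different, and its degree is at most `d`. `𝓕` = the set of these polynomials, of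
cardinality at most `p ^ k ≤ B N ^ ε`. -/
def StpStmt : Prop := DivStmt → AbsConcl → LedConcl → EnuStmt → NumStmt → ∀ (p : ℕ) [Fact p.Prime]
  (K : ℕ) (ε : ℝ), 0 < ε → ∃ (d : ℕ) (B : ℝ), ∀ H : PowerSeries (PowerSeries ℤ_[p]), H ≠ 0 →
    Dom K H → ∀ (c : Fin 2 → ℤ) (N : ℕ), 1 ≤ N → ∀ Z : Finset (Fin 2 → ℤ),
      (∀ P ∈ Z, (∀ i, |P i| ≤ N) ∧ ∃ x : Fin 2 → ℤ_[p],
        (∀ i, (P i : ℤ_[p]) = c i + (p : ℤ_[p]) ^ 3 * x i) ∧ Zero H (x 0) (x 1)) →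
      ∃ 𝓕 : Finset (MvPolynomial (Fin 2) ℤ), (𝓕.card : ℝ) ≤ B * (N : ℝ) ^ ε ∧
        (∀ Φ ∈ 𝓕, Φ ≠ 0 ∧ Φ.totalDegree ≤ d) ∧ ∀ P ∈ Z, ∃ Φ ∈ 𝓕, MvPolynomial.eval P Φ = 0

/-- The conclusion of STP. -/
def StpConcl : Prop := ∀ (p : ℕ) [Fact p.Prime]
  (K : ℕ) (ε : ℝ), 0 < ε → ∃ (d : ℕ) (B : ℝ), ∀ H : PowerSeries (PowerSeries ℤ_[p]), H ≠ 0 →
    Dom K H → ∀ (c : Fin 2 → ℤ) (N : ℕ), 1 ≤ N → ∀ Z : Finset (Fin 2 → ℤ),
      (∀ P ∈ Z, (∀ i, |P i| ≤ N) ∧ ∃ x : Fin 2 → ℤ_[p],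
        (∀ i, (P i : ℤ_[p]) = c i + (p : ℤ_[p]) ^ 3 * x i) ∧ Zero H (x 0) (x 1)) →
      ∃ 𝓕 : Finset (MvPolynomial (Fin 2) ℤ), (𝓕.card : ℝ) ≤ B * (N : ℝ) ^ ε ∧
        (∀ Φ ∈ 𝓕, Φ ≠ 0 ∧ Φ.totalDegree ≤ d) ∧ ∀ P ∈ Z, ∃ Φ ∈ 𝓕, MvPolynomial.eval P Φ = 0

end Pool.Agent.LPW
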