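import Pool.Agent.LUB.Stmts

/-!
# Squad LPW: few exceptions to Leopoldt's conjecture in multi-parameter families

Definitions. The families have two parameters: polynomials in `Y` with coefficients in
`ℤ[S, T] = MvPolynomial (Fin 2) ℤ`; points are functions `P : Fin 2 → ℤ`.
-/

set_option autoImplicit false

open Polynomial NumberField
open Pool.Agent.Helper85_Leo (LeopoldtAt)
open Pool.Agent.LUB (FullRank sp spr)

namespace Pool.Agent.LPW

/-- The polynomial `f(P, Y)` for a point `P` with coordinates in a commutative ring `S`. -/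
noncomputable def spr2 {S : Type} [CommRing S] (f : (MvPolynomial (Fin 2) ℤ)[X])
    (P : Fin 2 → S) : S[X] :=
  f.map (MvPolynomial.eval₂Hom (Int.castRingHom S) P)

/-- The restriction of the family to the line `P + T v`, a one-parameter family. -/
noncomputable def res (f : (MvPolynomial (Fin 2) ℤ)[X]) (P v : Fin 2 → ℤ) : ℤ[X][X] :=
  spr2 f fun i => C (P i) + C (v i) * X

/-- Leopoldt's conjecture fails at `p` for some number field `K` of degree `n`, generated by a root
`θ` of `F`, of unit rank at most `r`, in which the `U i (θ)`, `i < r`, are units. -/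
def ExcPt (p : ℕ) [Fact p.Prime] (n : ℕ) {r : ℕ} (F : ℤ[X]) (U : Fin r → ℤ[X]) : Prop :=
  ∃ (K : Type) (_ : Field K) (_ : NumberField K) (θ : 𝓞 K),
    aeval θ F = 0 ∧ IntermediateField.adjoin ℚ {(θ : K)} = ⊤ ∧
    Module.finrank ℚ K = n ∧ (∀ i, IsUnit (aeval θ (U i))) ∧
    Units.rank K ≤ r ∧ ¬ LeopoldtAt K p

/-- Families of bounded degree. -/
def Fam2 (n : ℕ) {r : ℕ} (D : ℕ) (f : (MvPolynomial (Fin 2) ℤ)[X])
    (u : Fin r → (MvPolynomial (Fin 2) ℤ)[X]) : Prop :=
  f.Monic ∧ f.natDegree = n ∧ (∀ j, (f.coeff j).totalDegree ≤ D) ∧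
    ∀ i, (u i).natDegree ≤ D ∧ ∀ j, ((u i).coeff j).totalDegree ≤ D

/-- On every line through a point of `A` the units have full rank at infinity. -/
def LineFull {r : ℕ} (f : (MvPolynomial (Fin 2) ℤ)[X]) (u : Fin r → (MvPolynomial (Fin 2) ℤ)[X])
    (A : Set (Fin 2 → ℤ)) : Prop :=
  ∀ P ∈ A, ∀ v : Fin 2 → ℤ, v ≠ 0 → FullRank (res f P v) fun i => res (u i) P v

/-- `ee m L = ∑ l < L, ⌊l / m⌋`, the order of vanishing of a determinant of size `L` on a curve
with `m` points over every value of the first coordinate. -/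
def ee (m L : ℕ) : ℕ := ∑ l ∈ Finset.range L, l / m

/-- The number of the monomials of degree at most `d` in two variables. -/
def Ld (d : ℕ) : ℕ := ∑ c ∈ Finset.range (d + 1), (c + 1)

/-- The sum of the degrees of the monomials of degree at most `d` in two variables. -/
def Sd (d : ℕ) : ℕ := ∑ c ∈ Finset.range (d + 1), c * (c + 1)

/-- The number of the monomials of degree at most `D` in two variables which are not divisible by a
fixed monomial of degree `e`. -/
def Le (e D : ℕ) : ℕ := ∑ c ∈ Finset.range (D + 1), min (c + 1) e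

/-- The sum of the degrees of these monomials. -/
def Se (e D : ℕ) : ℕ := ∑ c ∈ Finset.range (D + 1), c * min (c + 1) e

/-- The coefficient of `X₀ ^ i X₁ ^ j` of a power series in `X₁` over the power series in `X₀`. -/
noncomputable def hc {R : Type} [CommRing R] (H : PowerSeries (PowerSeries R)) (i j : ℕ) : R :=
  PowerSeries.coeff i (PowerSeries.coeff j H)

/-- All coefficients are dominated by coefficients of degree at most `K`. -/
def Dom {p : ℕ} [Fact p.Prime] (K : ℕ) (H : PowerSeries (PowerSeries ℤ_[p])) : Prop :=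
  ∀ i j, ∃ k l, k + l ≤ K ∧ ‖hc H i j‖ ≤ ‖hc H k l‖

/-- `(x₀, x₁)` is a zero of `H` on the polydisc of radius `1 / p`, scaled by `p`. -/
def Zero {p : ℕ} [Fact p.Prime] (H : PowerSeries (PowerSeries ℤ_[p])) (x₀ x₁ : ℤ_[p]) : Prop :=
  ∃ φ₀ φ₁ : PowerSeries ℤ_[p] →ₐ[ℤ_[p]] ℤ_[p], φ₀ PowerSeries.X = p * x₀ ∧
    φ₁ PowerSeries.X = p * x₁ ∧ φ₁ (PowerSeries.map (φ₀ : PowerSeries ℤ_[p] →+* ℤ_[p]) H) = 0

end Pool.Agent.LPW
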