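import Pool.Agent.LPW.StmtsS

/-!
# Squad LPW, block C: integral points on irreducible algebraic curves

THEOREM (BPB, Bombieri and Pila, for the exponent 1/2). An irreducible plane algebraic curve of
degree between `2` and `d` contains at most `C(d, ε) N ^ (1 / 2 + ε)` integral points of height at
most `N`. The proof is the method of auxiliary primes of Heath-Brown.
-/

set_option autoImplicit false

open Polynomial

namespace Pool.Agent.LPW

/-- BEZ (200 lines). A weak form of the theorem of Bezout.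
PROOF. If `F = 0` then `G` is a unit, a non-zero constant, and there is no zero. Let `F, G ≠ 0`. View
them in `ℚ[X₀][X₁]` (`MvPolynomial.finSuccEquiv` and friends). They are relatively prime there, hence
(Gauss) have no common factor of positive degree in `ℚ(X₀)[X₁]`, so they are coprime over `ℚ(X₀)`, and
the resultant `R(X₀)` with respect to `X₁` is not zero. It is a determinant of size at most `2 d` with
entries of degree at most `d`, so `deg R ≤ 2 d ^ 2`, and `R = a F + b G`. So the first coordinate of a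
common zero takes at most `2 d ^ 2` values; by symmetry (exchange the variables) the second as well:
`B = 4 d ^ 4`. ALTERNATIVE without resultants: let `V_k` be the space of the polynomials of degree at
most `k` (dimension `(k + 1) (k + 2) / 2`), `a = deg F`, `b = deg G`. The kernel of
`V_(k-a) × V_(k-b) → V_k`, `(x, y) ↦ x F + y G` is `{(z G, - z F)}` (relatively prime), isomorphic to
`V_(k-a-b)`, so the image `I_k` has codimension `a b` in `V_k` for `k ≥ a + b`. If there were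
`s > a b` common zeros, then for large `k` there would be polynomials in `V_k` equal to `1` at one of
them and `0` at the others (products of linear forms), `s` elements of `V_k` independent modulo
`I_k`: a contradiction. (Any explicit or inexplicit bound depending only on `d` is enough.) -/
def BezStmt : Prop := ∀ d : ℕ, ∃ B : ℕ, ∀ F G : MvPolynomial (Fin 2) ℚ, F.totalDegree ≤ d →
  G.totalDegree ≤ d → IsRelPrime F G →
  {P : Fin 2 → ℚ | MvPolynomial.eval P F = 0 ∧ MvPolynomial.eval P G = 0}.encard ≤ B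

/-- IFT (150 lines). The implicit function, approximately.
PROOF. Let `w` be an integer with `w * eval P₁ (pderiv 1 G) ≡ 1` modulo `l`. Induction on `M`: for
`M ≤ 1` take `τ = C (P₁ 1)`. For `M ≥ 1` let `τ` work for `M` and put
`τ' = τ - w G(P₁ 0 + X, τ)` (substitute `X₀ = C (P₁ 0) + X`, `X₁ = τ` in `G`). Let `P` be a point,
`x = P 0 - P₁ 0`, `P 1 = τ(x) + l ^ M z`. Taylor: `0 = G(P 0, P 1) = G(P 0, τ(x)) +
(∂₁ G)(P 0, τ(x)) l ^ M z + l ^ (2 M) (..)`, and `(∂₁ G)(P 0, τ(x)) ≡ (∂₁ G)(P₁)` modulo `l`, since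
`P 0 ≡ P₁ 0` and `τ(x) ≡ P 1 ≡ P₁ 1`. So `G(P 0, τ(x)) ≡ - (∂₁ G)(P₁) l ^ M z` modulo
`l ^ (M + 1)`, and `P 1 - τ'(x) = l ^ M z + w G(P 0, τ(x)) ≡ l ^ M z - l ^ M z = 0`. (For Taylor it
may be convenient to pass to the polynomial `G(P 0, T)` in one variable `T`; its derivative is
`(∂₁ G)(P 0, T)`; `Polynomial.binomExpansion` / `Polynomial.evalSubFactor`.) -/
def IftStmt : Prop := ∀ (l : ℕ), l.Prime → ∀ (G : MvPolynomial (Fin 2) ℤ) (P₁ : Fin 2 → ℤ),
  ¬ (l : ℤ) ∣ MvPolynomial.eval P₁ (MvPolynomial.pderiv 1 G) → ∀ M : ℕ, ∃ τ : ℤ[X],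
    ∀ P : Fin 2 → ℤ, MvPolynomial.eval P G = 0 → (∀ i, (l : ℤ) ∣ P i - P₁ i) →
      (l : ℤ) ^ M ∣ P 1 - τ.eval (P 0 - P₁ 0)

/-- CLS (60 lines). The points in one residue class lie on a further curve.
PROOF. IFT with `M = ee 1 L` gives `τ`. Apply ABS with `p = l`, `m = 1`, `k = 1`, `η = 0`,
`r a = C ((C (P₁ 0) + X) ^ (e a 0) * τ ^ (e a 1))` (over `ℤ_l`), `ξ = (P 0 - P₁ 0) / l`, `y = 0`: the
value of `r a` at `l ξ = P 0 - P₁ 0` is `(P 0) ^ (e a 0) τ(P 0 - P₁ 0) ^ (e a 1)`, congruent to the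
monomial modulo `l ^ M`. -/
def ClsStmt : Prop := AbsConcl → IftStmt → ∀ (l : ℕ) [Fact l.Prime] (G : MvPolynomial (Fin 2) ℤ)
  (L N : ℕ) (e : Fin L → Fin 2 → ℕ),
  L.factorial * N ^ (∑ a, (e a 0 + e a 1)) < l ^ ee 1 L → ∀ P₁ : Fin 2 → ℤ,
  ¬ (l : ℤ) ∣ MvPolynomial.eval P₁ (MvPolynomial.pderiv 1 G) → ∀ Z : Finset (Fin 2 → ℤ),
  (∀ P ∈ Z, (∀ i, |P i| ≤ N) ∧ MvPolynomial.eval P G = 0 ∧ ∀ i, (l : ℤ) ∣ P i - P₁ i) →
  ∃ c : Fin L → ℤ, c ≠ 0 ∧ ∀ P ∈ Z, ∑ a, c a * ((P 0) ^ (e a 0) * (P 1) ^ (e a 1)) = 0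

/-- The conclusion of CLS. -/
def ClsConcl : Prop := ∀ (l : ℕ) [Fact l.Prime] (G : MvPolynomial (Fin 2) ℤ)
  (L N : ℕ) (e : Fin L → Fin 2 → ℕ),
  L.factorial * N ^ (∑ a, (e a 0 + e a 1)) < l ^ ee 1 L → ∀ P₁ : Fin 2 → ℤ,
  ¬ (l : ℤ) ∣ MvPolynomial.eval P₁ (MvPolynomial.pderiv 1 G) → ∀ Z : Finset (Fin 2 → ℤ),
  (∀ P ∈ Z, (∀ i, |P i| ≤ N) ∧ MvPolynomial.eval P G = 0 ∧ ∀ i, (l : ℤ) ∣ P i - P₁ i) →
  ∃ c : Fin L → ℤ, c ≠ 0 ∧ ∀ P ∈ Z, ∑ a, c a * ((P 0) ^ (e a 0) * (P 1) ^ (e a 1)) = 0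

/-- MNO (200 lines). Monomials which are independent modulo the multiples of `G`.
PROOF. Let `G_e ≠ 0` be the homogeneous part of degree `e` of `G`, and `(a, b)`, `a + b = e`, the
exponent of `G_e` with the largest `a`. Let the `x` enumerate the pairs `(i, j)`, `i + j ≤ D`, for
which not (`i ≥ a` and `j ≥ b`). For `c < e` there are `c + 1` of them with `i + j = c`, and for
`c ≥ e` there are `c + 1 - (c - e + 1) = e`. If `G Q = ∑ c a X ^ (x a)` is not zero, then the
homogeneous part of the highest degree of the left side is `G_e Q_f`, `Q_f` the part of `Q` of the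
highest degree; if `(a', b')` is the exponent of `Q_f` with the largest `a'`, then the coefficient of
`(a + a', b + b')` in `G_e Q_f` is the product of the two leading coefficients, not zero, but this
exponent is not among the `x`. (Monomial orders: `MonomialOrder.degLex`, or a direct argument with
`totalDegree` and `weightedDegree`; the top coefficients multiply.) -/
def MnoStmt : Prop := ∀ (e D : ℕ), 1 ≤ e → e ≤ D → ∀ G : MvPolynomial (Fin 2) ℚ,
  G.totalDegree = e → ∃ x : Fin (Le e D) → Fin 2 → ℕ, Function.Injective x ∧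
    (∀ a, x a 0 + x a 1 ≤ D) ∧ ∑ a, (x a 0 + x a 1) = Se e D ∧
    ∀ c : Fin (Le e D) → ℚ, c ≠ 0 → ¬ G ∣ ∑ a, MvPolynomial.C (c a) *
      (MvPolynomial.X 0 ^ (x a 0) * MvPolynomial.X 1 ^ (x a 1))

/-- NME (80 lines). The exponents.
PROOF. `Se e D ≤ e D (D + 1) / 2`; `e (D + 1) - e ^ 2 ≤ Le e D ≤ e (D + 1)`, and
`ee 1 L = L (L - 1) / 2`. For `e ≥ 2` the quotient `Se e D / ee 1 (Le e D)` is at most
`e D (D + 1) / ((e (D + 1) - e ^ 2) (e (D + 1) - e ^ 2 - 1))`, which tends to `1 / e ≤ 1 / 2` as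
`D → ∞`; there are finitely many `e ≤ d`. -/
def NmeStmt : Prop := ∀ (d : ℕ) (ε : ℝ), 0 < ε → ∃ D, d ≤ D ∧ ∀ e, 2 ≤ e → e ≤ d →
  (Se e D : ℝ) ≤ (1 / 2 + ε) * ee 1 (Le e D) ∧ 0 < ee 1 (Le e D)

/-- KRB (120 lines). Small vectors in the kernel of an integral matrix.
PROOF. Let `ρ < L` be the rank of `A` over `ℚ` and choose a non-zero minor of size `ρ` with rows `I`
and columns `J`, and a column `j₀` not in `J`. Let `z` be supported on `J ∪ {j₀}` with
`z j = ±` the minor of the rows `I` and the columns `(J ∪ {j₀}) \ {j}` (expansion of the determinants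
of size `ρ + 1` with the rows `I` and one more row of `A`, which vanish, along this additional row).
Then `A z = 0`, `z j₀ ≠ 0` and `|z j| ≤ ρ! W ^ ρ ≤ L! W ^ L`. Alternative: induction on `L`. -/
def KrbStmt : Prop := ∀ (L W n : ℕ) (A : Fin n → Fin L → ℤ), 1 ≤ W → (∀ i j, |A i j| ≤ W) →
  (∃ y : Fin L → ℚ, y ≠ 0 ∧ ∀ i, ∑ j, (A i j : ℚ) * y j = 0) →
  ∃ z : Fin L → ℤ, z ≠ 0 ∧ (∀ i, ∑ j, A i j * z j = 0) ∧ ∀ j, |z j| ≤ L.factorial * (W : ℤ) ^ L

/-- CFB (150 lines). Irreducible curves with many integral points have small equations.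
PROOF. Let `e = totalDegree G`, `1 ≤ e ≤ d`, `L = Ld e` and let `B` be at least the bounds of BEZ for
`d` and `(Ld e)!`, `e Ld e` for all `e ≤ d`. Choose `B + 1` integral points of height at most `N` on
`G = 0` and let `A` be the matrix of the values of the monomials of degree at most `e` (ENU) at these
points, with entries of absolute value at most `W = N ^ e`. The coefficients of `G` are a vector in
the kernel. KRB gives `z`; let `G' = ∑ z a X₀ ^ (e a 0) X₁ ^ (e a 1)`, not zero, of degree at most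
`e`, with `|coefficients| ≤ L! (N ^ e) ^ L ≤ B N ^ B`. It vanishes at the `B + 1` points, so by BEZ
`G` and `G'` (over `ℚ`) are not relatively prime, so the irreducible `G` divides `G'`, and comparing
the degrees (`MvPolynomial.totalDegree_mul_of_isDomain`) the quotient is a non-zero constant. -/
def CfbStmt : Prop := BezStmt → KrbStmt → EnuStmt → ∀ d : ℕ, ∃ B : ℕ,
  ∀ G : MvPolynomial (Fin 2) ℚ, Irreducible G → G.totalDegree ≤ d → ∀ N : ℕ, 1 ≤ N →
  (B : ℕ∞) < {P : Fin 2 → ℤ | (∀ i, |P i| ≤ N) ∧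
    MvPolynomial.eval (fun i => (P i : ℚ)) G = 0}.encard →
  ∃ G' : MvPolynomial (Fin 2) ℤ, Associated (MvPolynomial.map (Int.castRingHom ℚ) G') G ∧
    ∀ s, |MvPolynomial.coeff s G'| ≤ B * (N : ℤ) ^ B

/-- The conclusion of CFB. -/
def CfbConcl : Prop := ∀ d : ℕ, ∃ B : ℕ,
  ∀ G : MvPolynomial (Fin 2) ℚ, Irreducible G → G.totalDegree ≤ d → ∀ N : ℕ, 1 ≤ N →
  (B : ℕ∞) < {P : Fin 2 → ℤ | (∀ i, |P i| ≤ N) ∧
    MvPolynomial.eval (fun i => (P i : ℚ)) G = 0}.encard →
  ∃ G' : MvPolynomial (Fin 2) ℤ, Associated (MvPolynomial.map (Int.castRingHom ℚ) G') G ∧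
    ∀ s, |MvPolynomial.coeff s G'| ≤ B * (N : ℤ) ^ B

/-- PRM (30 lines). Primes in short intervals (on the logarithmic scale).
PROOF. `Nat.exists_prime_lt_and_le_two_mul`, `h` times. -/
def PrmStmt : Prop := ∀ h B : ℕ, 1 ≤ B → ∃ s : Finset ℕ, s.card = h ∧
  ∀ l ∈ s, l.Prime ∧ B < l ∧ l ≤ 2 ^ h * B

/-- BPC (STRONG, 200 lines). The points which are smooth modulo `l`.
PROOF. Let `B` be the bound of BEZ for `D`. Let `S` be a finite set of points as in the statement. A
point `P` of `S` gives the pair `(P 0 mod l, P 1 mod l)`; for a fixed first component the second is a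
zero of the polynomial `G(P 0, T)` modulo `l`, of degree at most `e`, which is not zero since its
derivative does not vanish at `P 1`: at most `e` values. So there are at most `e l` pairs. For the
points `Z` with a given pair choose one of them as `P₁` (if there is one) and take `x` from MNO for
`G` over `ℚ`; CLS gives `c ≠ 0` such that `F = ∑ c a X₀ ^ (x a 0) X₁ ^ (x a 1)` vanishes on `Z`. `G`
does not divide `F` over `ℚ`, so `G` (irreducible) and `F` are relatively prime, of degree at most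
`D`, and `Z` has at most `B` elements by BEZ. In total at most `e l B`. -/
def BpcStmt : Prop := BezStmt → ClsConcl → MnoStmt → ∀ D : ℕ, ∃ B : ℕ, ∀ (e N l : ℕ)
  [Fact l.Prime] (G : MvPolynomial (Fin 2) ℤ), 1 ≤ e → e ≤ D →
  Irreducible (MvPolynomial.map (Int.castRingHom ℚ) G) →
  (MvPolynomial.map (Int.castRingHom ℚ) G).totalDegree = e →
  (Le e D).factorial * N ^ Se e D < l ^ ee 1 (Le e D) →
  {P : Fin 2 → ℤ | (∀ i, |P i| ≤ N) ∧ MvPolynomial.eval P G = 0 ∧
    ¬ (l : ℤ) ∣ MvPolynomial.eval P (MvPolynomial.pderiv 1 G)}.encard ≤ (e * l * B : ℕ)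

/-- The conclusion of BPC. -/
def BpcConcl : Prop := ∀ D : ℕ, ∃ B : ℕ, ∀ (e N l : ℕ)
  [Fact l.Prime] (G : MvPolynomial (Fin 2) ℤ), 1 ≤ e → e ≤ D →
  Irreducible (MvPolynomial.map (Int.castRingHom ℚ) G) →
  (MvPolynomial.map (Int.castRingHom ℚ) G).totalDegree = e →
  (Le e D).factorial * N ^ Se e D < l ^ ee 1 (Le e D) →
  {P : Fin 2 → ℤ | (∀ i, |P i| ≤ N) ∧ MvPolynomial.eval P G = 0 ∧
    ¬ (l : ℤ) ∣ MvPolynomial.eval P (MvPolynomial.pderiv 1 G)}.encard ≤ (e * l * B : ℕ)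

/-- BPB (STRONG, 250 lines). The theorem of Bombieri and Pila with exponent `1 / 2`.
PROOF. Let `D ≥ d` be from NME for `d` and `ε`, `B₁` the bound of BPC for `D`, `B₂` of CFB for `d`,
`B₃` of BEZ for `d`, and `F` the maximum of the `(Le e D)!`, `e ≤ d`. If the set has at most `B₂`
elements we are done (`N ^ (..) ≥ 1`). Otherwise let `G'` be the integral equation of CFB: `G'` over
`ℚ` is irreducible with the same zeros and the same degree `e`, `2 ≤ e ≤ d`. Let
`H = pderiv 1 G'`. If `H = 0`, then `G'` is a polynomial in `X₀` only, irreducible of degree at least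
`2`, so it has no rational zero, a contradiction. So `H ≠ 0` has smaller degree than `G'`, is
relatively prime to it, and at most `B₃` points satisfy `H(P) = 0`. For the others `H(P)` is a
non-zero integer with `|H(P)| ≤ (number of monomials) d B₂ N ^ B₂ N ^ d ≤ C₁ N ^ (c₁)` with constants
depending on `d` only. Let `h = 2 c₁ + 1` and `B₀ = ⌈(C₁ + F) N ^ (1 / 2 + ε)⌉`, and let `s` be from
PRM for `h`, `B₀`. The product of the `h` primes of `s` is larger than
`B₀ ^ h ≥ C₁ N ^ (h / 2) ≥ |H(P)|`, so one of them does not divide `H(P)`. For `l` in `s`: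
`l ^ ee > (F N ^ (1 / 2 + ε)) ^ ee ≥ F N ^ Se` (`ee = ee 1 (Le e D) ≥ 1`, NME), so BPC bounds the
number of the points with `l ∤ H(P)` by `e l B₁ ≤ d 2 ^ h B₀ B₁`. In total at most
`B₃ + h d 2 ^ h B₀ B₁ ≤ C N ^ (1 / 2 + ε)`. -/
def BpbStmt : Prop := BezStmt → NmeStmt → CfbConcl → PrmStmt → BpcConcl → ∀ (d : ℕ) (ε : ℝ), 0 < ε →
  ∃ B : ℝ, ∀ G : MvPolynomial (Fin 2) ℚ, Irreducible G → 2 ≤ G.totalDegree → G.totalDegree ≤ d →
  ∀ N : ℕ, 1 ≤ N → (({P : Fin 2 → ℤ | (∀ i, |P i| ≤ N) ∧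
    MvPolynomial.eval (fun i => (P i : ℚ)) G = 0}).ncard : ℝ) ≤ B * (N : ℝ) ^ (1 / 2 + ε)

/-- The conclusion of BPB. -/
def BpbConcl : Prop := ∀ (d : ℕ) (ε : ℝ), 0 < ε →
  ∃ B : ℝ, ∀ G : MvPolynomial (Fin 2) ℚ, Irreducible G → 2 ≤ G.totalDegree → G.totalDegree ≤ d →
  ∀ N : ℕ, 1 ≤ N → (({P : Fin 2 → ℤ | (∀ i, |P i| ≤ N) ∧
    MvPolynomial.eval (fun i => (P i : ℚ)) G = 0}).ncard : ℝ) ≤ B * (N : ℝ) ^ (1 / 2 + ε)

end Pool.Agent.LPW
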