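import Pool.Agent.LPW.StmtsC
import Pool.Agent.Helper65_Dens.Final

/-!
# Squad LPW, block D: full rank on the lines of the family of products

The family: a vector `a : Ix r₁ r₂ → ℤ` gives `r₁` linear and `r₂` quadratic monic factors
(`Helper65_Dens`: `gpoly`, `prodPoly`); the polynomial is the product of the factors minus one, and
the units are the factors. The two parameters are added to the constant coefficients of two factors.
-/

set_option autoImplicit false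

open Polynomial NumberField
open Pool.Agent.LUB (FullRank sp spr)
open Pool.Agent.Helper65_Dens (Par gpoly Ix degs prodPoly ixMap Sep)

namespace Pool.Agent.LPW

/-- Add the numbers `P 0`, `P 1` to the coordinates `q 0`, `q 1` of `a`. -/
def shg {κ : Type} [DecidableEq κ] (q : Fin 2 → κ) (a : κ → ℤ) (P : Fin 2 → ℤ) : κ → ℤ :=
  fun x => a x + ∑ k, if x = q k then P k else 0

/-- The index of the constant coefficient of a factor. -/
def cst {r₁ r₂ : ℕ} : Fin r₁ ⊕ Fin r₂ → Ix r₁ r₂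
  | .inl i => .inl i
  | .inr j => .inr (.inr j)

/-- The factor with the index `j`. -/
noncomputable def fac {r₁ r₂ : ℕ} (a : Ix r₁ r₂ → ℤ) (j : Fin r₁ ⊕ Fin r₂) : ℤ[X] :=
  gpoly (degs r₁ r₂) (fun q => a (ixMap q)) j

/-- The factor `j` of the two-parameter family: the variables are added to the constant
coefficients of the factors `i 0`, `i 1`. -/
noncomputable def gg {r₁ r₂ : ℕ} (a : Ix r₁ r₂ → ℤ) (i : Fin 2 → Fin r₁ ⊕ Fin r₂)
    (j : Fin r₁ ⊕ Fin r₂) : (MvPolynomial (Fin 2) ℤ)[X] :=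
  (fac a j).map MvPolynomial.C + C (∑ k, if j = i k then MvPolynomial.X k else 0)

/-- The two-parameter family. -/
noncomputable def ff {r₁ r₂ : ℕ} (a : Ix r₁ r₂ → ℤ) (i : Fin 2 → Fin r₁ ⊕ Fin r₂) :
    (MvPolynomial (Fin 2) ℤ)[X] := ∏ j, gg a i j - 1

/-- HRM (60 lines). Weighted Laplace matrices.
PROOF. If the determinant is `0`, there is `y ≠ 0` on `{i // i ≠ ω}` with `∑_i y_i Λ_ij = 0` for all
`j ≠ ω` (`Matrix.exists_vecMul_eq_zero_iff`); put `y_ω = 0`. Then `∑_i (y_i - y_j) Λ_ij = 0` for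
`j ≠ ω`, as `∑_i Λ_ij = 0`. Let `|y_j|` be maximal; replacing `y` by `- y` we may assume
`y_j = max |y| > 0`. All terms `(y_i - y_j) Λ_ij` are `≤ 0`, so they vanish: `Λ_ij > 0` implies
`y_i = y_j`. If `Λ_ωj > 0`, then `0 = y_j`, a contradiction. Otherwise `Λ_j'j > 0` gives
`y_j' = y_j`, also maximal (so `j' ≠ ω`), and `Λ_ωj' > 0` gives `0 = y_j'`, a contradiction. -/
def HrmStmt : Prop := ∀ (ι : Type) [Fintype ι] [DecidableEq ι] (Λ : ι → ι → ℝ) (ω : ι),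
  (∀ i j, i ≠ j → 0 ≤ Λ i j) → (∀ j, ∑ i, Λ i j = 0) →
  (∀ j, j ≠ ω → 0 < Λ ω j ∨ ∃ j', 0 < Λ j' j ∧ 0 < Λ ω j') →
  (Matrix.of fun (i j : {i // i ≠ ω}) => Λ i j).det ≠ 0

/-- NRT (40 lines). A root near a point where the polynomial is small.
PROOF. `F = ∏ (X - z_c)` over the roots (`ℂ` algebraically closed), `∏ ‖ρ - z_c‖ = ‖F(ρ)‖ ≤ 1`, so
one of the (at least one) factors is at most one. -/
def NrtStmt : Prop := ∀ (F : ℂ[X]) (ρ : ℂ), F.Monic → 0 < F.natDegree → ‖F.eval ρ‖ ≤ 1 →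
  ∃ z : ℂ, F.eval z = 0 ∧ ‖z - ρ‖ ≤ 1

/-- SPG (150 lines). The members of the two-parameter family.
PROOF. `fac` is `X ^ m + ∑_{k < m} C (a (ixMap (j, k))) X ^ k` with `m` = 1 or 2, and the index with
`k = 0` is `cst j`; so adding an integer to the coordinate `cst j` adds it to the factor. The product
of the factors is `prodPoly` (`Helper65_Dens.prod_gpoly_ixMap`). The family is monic of degree
`r₁ + 2 r₂` (the product of monic polynomials minus a constant, `0 < r₁ + 2 r₂`); the coefficients of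
the `gg` have total degree at most one, so those of the product have total degree at most
`r₁ + r₂`. -/
def SpgStmt : Prop := ∀ (r₁ r₂ : ℕ), 3 ≤ r₁ + r₂ → ∀ (a : Ix r₁ r₂ → ℤ)
  (i : Fin 2 → Fin r₁ ⊕ Fin r₂), Function.Injective i →
  (∀ (P : Fin 2 → ℤ) (j), spr2 (gg a i j) P = fac (shg (fun k => cst (i k)) a P) j) ∧
  (∀ P : Fin 2 → ℤ, spr2 (ff a i) P = prodPoly (shg (fun k => cst (i k)) a P) - 1) ∧
  (∀ a' : Ix r₁ r₂ → ℤ, ∏ j, fac a' j = prodPoly a') ∧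
  ∀ (r : ℕ) (e : Fin r → Fin r₁ ⊕ Fin r₂), Fam2 (r₁ + 2 * r₂) (r₁ + 2 * r₂) (ff a i)
    fun l => gg a i (e l)

/-- DSA (120 lines). The size of the roots of the factors along a line.
PROOF. Let `m` be with `j = i m` and `v m ≠ 0`. Linear factor: `ρ = - (b + k v m)`. Quadratic factor
`x ^ 2 + c x + d + k v m`: `|ρ (ρ + c)| = |d + k v m|` lies between `k - |d|` and `|v m| k + |d|`; so
`‖ρ‖ ^ 2 ≤ A k` and, since `‖ρ‖ ^ 4 < k` would imply `‖ρ (ρ + c)‖ ≤ k ^ (1/2) + |c| k ^ (1/4)`,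
`‖ρ‖ ^ 4 ≥ k` for large `k`. If there is no such `m`, the factor does not depend on `k`. -/
def DsaStmt : Prop := ∀ (r₁ r₂ : ℕ) (a : Ix r₁ r₂ → ℤ) (i : Fin 2 → Fin r₁ ⊕ Fin r₂),
  Function.Injective i → ∀ (P v : Fin 2 → ℤ), ∃ (A : ℝ) (k₀ : ℕ), 1 ≤ A ∧ ∀ k : ℕ, k₀ ≤ k →
    ∀ (j : Fin r₁ ⊕ Fin r₂) (ρ : ℂ),
      ((fac (shg (fun m => cst (i m)) a fun m => P m + v m * k) j).map
        (Int.castRingHom ℂ)).eval ρ = 0 →
      ((∃ m, j = i m ∧ v m ≠ 0) → (k : ℝ) ≤ ‖ρ‖ ^ 4 ∧ ‖ρ‖ ≤ A * k ∧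
        ((∃ j', j = .inr j') → ‖ρ‖ ^ 2 ≤ A * k) ∧ ((∃ j', j = .inl j') → (k : ℝ) ≤ 2 * ‖ρ‖)) ∧
      ((¬ ∃ m, j = i m ∧ v m ≠ 0) → ‖ρ‖ ≤ A)

/-- DSB (200 lines). The distances between the roots of different factors along a line.
PROOF. Let `j ≠ j'` and `ρ`, `ρ'` roots of the two factors at `k`. Neither moves (no `m` with
`j = i m`, `v m ≠ 0`): the factors are those of the separated vector at `k = 0`, distance `≥ 3`
(`Sep.norm_sub`; the roots of `fac` are the `rt`, see `rt_quadratic`). Exactly one moves: `‖ρ‖ ≥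
k ^ (1/4)`, `‖ρ'‖ ≤ A` by DSA. Both move, `{j, j'} = {i 0, i 1}`, `α = v m ≠ 0`, `β = v m' ≠ 0`:
linear and linear: `ρ - ρ' = (b' - b) + (β - α) k`; if `α = β`, then `|b' - b| ≥ 3` (`Sep.ll`), else
it tends to infinity. Linear and quadratic: `‖ρ‖ ≥ k / 2`, `‖ρ'‖ ^ 2 ≤ A k`. Quadratic and quadratic
(`x ^ 2 + c x + d + α k`, `x ^ 2 + c' x + d' + β k`): put `x = ρ + c / 2`, `x' = ρ' + c' / 2`, so
`x ^ 2 - x' ^ 2 = κ + (β - α) k` with a constant `κ`. Suppose `‖ρ - ρ'‖ < 2`; then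
`‖x - x'‖ ≤ B := 2 + |c - c'| / 2` and `‖x + x'‖ ≤ 2 ‖x‖ + B ≤ A' k ^ (1/2)`. If `α ≠ β`, then
`k - |κ| ≤ ‖x ^ 2 - x' ^ 2‖ ≤ B A' k ^ (1/2)`, impossible for large `k`. If `α = β`, then
`‖x + x'‖ ≥ 2 ‖x‖ - B` is large, so `‖x - x'‖ = |κ| / ‖x + x'‖ < 1` and
`‖ρ - ρ'‖ ≥ |c - c'| / 2 - 1 ≥ 2` (`Sep.qq`: `|c - c'| ≥ 6`), a contradiction. -/
def DsbStmt : Prop := DsaStmt → ∀ (r₁ r₂ : ℕ) (a : Ix r₁ r₂ → ℤ)
  (i : Fin 2 → Fin r₁ ⊕ Fin r₂), Function.Injective i → ∀ (P v : Fin 2 → ℤ),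
  Sep (shg (fun m => cst (i m)) a P) → ∃ k₀ : ℕ, ∀ k : ℕ, k₀ ≤ k →
    ∀ (j j' : Fin r₁ ⊕ Fin r₂) (ρ ρ' : ℂ), j ≠ j' →
      ((fac (shg (fun m => cst (i m)) a fun m => P m + v m * k) j).map
        (Int.castRingHom ℂ)).eval ρ = 0 →
      ((fac (shg (fun m => cst (i m)) a fun m => P m + v m * k) j').map
        (Int.castRingHom ℂ)).eval ρ' = 0 → 2 ≤ ‖ρ - ρ'‖

/-- The conclusion of DSB. -/
def DsbConcl : Prop := ∀ (r₁ r₂ : ℕ) (a : Ix r₁ r₂ → ℤ)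
  (i : Fin 2 → Fin r₁ ⊕ Fin r₂), Function.Injective i → ∀ (P v : Fin 2 → ℤ),
  Sep (shg (fun m => cst (i m)) a P) → ∃ k₀ : ℕ, ∀ k : ℕ, k₀ ≤ k →
    ∀ (j j' : Fin r₁ ⊕ Fin r₂) (ρ ρ' : ℂ), j ≠ j' →
      ((fac (shg (fun m => cst (i m)) a fun m => P m + v m * k) j).map
        (Int.castRingHom ℂ)).eval ρ = 0 →
      ((fac (shg (fun m => cst (i m)) a fun m => P m + v m * k) j').map
        (Int.castRingHom ℂ)).eval ρ' = 0 → 2 ≤ ‖ρ - ρ'‖

/-- FRL (STRONG, 300 lines). Full rank on all lines through separated points.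
PROOF. For a natural number `k` write `h_j` for the factor `j` (over `ℂ`) at the point `P + k v`; the
member of the family is `F = ∏ h_j - 1` (SPG). Choose a root `ρ_j` of every `h_j`; `F(ρ_j) = - 1`, so
NRT gives a root `z_j` of `F` with `‖z_j - ρ_j‖ ≤ 1`. Since `∏_i h_i(z_j) = 1` no `h_i(z_j)` is zero
and `∑_i log ‖h_i(z_j)‖ = 0`. For `i ≠ j` and large `k`: `‖h_i(z_j)‖ = ∏ ‖z_j - ρ‖` over the roots
`ρ` of `h_i`, and `‖z_j - ρ‖ ≥ ‖ρ_j - ρ‖ - 1 ≥ 1` (DSB), `≤ 3 A k` (DSA); so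
`λ_ij = log ‖h_i(z_j)‖ / log k` is in `[0, 3]`. If exactly one of the factors `i`, `j` moves, then
`‖z_j - ρ‖ ≥ k ^ (1/4) - A - 1 ≥ k ^ (1/5)` and `λ_ij ≥ 1/5`. So the `λ_ij` are bounded (the diagonal
ones by the sum rule); let `Λ_ij` be their limits along an ultrafilter `≤ atTop` on `ℕ`. `Λ` satisfies
the hypotheses of HRM for `ω = i 1`: if `v 1 ≠ 0`, then `Λ_ωj > 0` for the `j` which do not move, and
for the other `j = i 0` (if it moves) take a factor `j'` different from `i 0`, `i 1` (there are at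
least three factors): `Λ_j'j > 0`, `Λ_ωj' > 0`; if `v 1 = 0`, then `i 0` moves and `ω` does not:
`Λ_ωj > 0` for `j = i 0`, and for the other `j ≠ ω` take `j' = i 0`. So the determinant `δ` of
`(Λ_ij)`, `i, j ≠ ω`, is not `0`, and `|det (λ_ij)| ≥ |δ| / 2` for a set of the ultrafilter, so for
infinitely many `k`: this is `FullRank` with `c = |δ| / 2`, `t = k`, `z l = z_(e l)` (reindex by the
bijection `e`; the values of the restricted family at `t = k` are those at `P + k v`). -/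
def FrlStmt : Prop := HrmStmt → NrtStmt → SpgStmt → DsaStmt → DsbConcl → ∀ (r₁ r₂ : ℕ),
  3 ≤ r₁ + r₂ → ∀ (a : Ix r₁ r₂ → ℤ) (i : Fin 2 → Fin r₁ ⊕ Fin r₂), Function.Injective i →
  ∀ (r : ℕ) (e : Fin r → Fin r₁ ⊕ Fin r₂), Function.Injective e →
  (∀ j, (∃ l, e l = j) ↔ j ≠ i 1) → ∀ P : Fin 2 → ℤ, Sep (shg (fun m => cst (i m)) a P) →
  ∀ v : Fin 2 → ℤ, v ≠ 0 → FullRank (res (ff a i) P v) fun l => res (gg a i (e l)) P v

/-- The conclusion of FRL. -/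
def FrlConcl : Prop := ∀ (r₁ r₂ : ℕ),
  3 ≤ r₁ + r₂ → ∀ (a : Ix r₁ r₂ → ℤ) (i : Fin 2 → Fin r₁ ⊕ Fin r₂), Function.Injective i →
  ∀ (r : ℕ) (e : Fin r → Fin r₁ ⊕ Fin r₂), Function.Injective e →
  (∀ j, (∃ l, e l = j) ↔ j ≠ i 1) → ∀ P : Fin 2 → ℤ, Sep (shg (fun m => cst (i m)) a P) →
  ∀ v : Fin 2 → ℤ, v ≠ 0 → FullRank (res (ff a i) P v) fun l => res (gg a i (e l)) P v

end Pool.Agent.LPW
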