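import Pool.Agent.LPW.StmtsD

/-!
# Squad LPW, block E: assembly

MAIN THEOREM (UPW). For every prime `p` and all `n`, `r`, `D`, `ε > 0` there is `B` such that for
every two-parameter family (monic `f(S, T, Y)` of degree `n`, units `u 1, ..., u r`, all degrees at
most `D`) and every set `A` of integral points such that the units have full rank on all lines
through points of `A`, every square of side `N` contains at most `B N ^ (1 / 2 + ε)` points of `A` at
which Leopoldt's conjecture fails at `p`. COROLLARY (BX2). In the family of products of all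
signatures with `r₁ + r₂ ≥ 3`: in every box with sides `≥ M` at most `B (∏ N_q) / M ^ (3/2 - ε)`
separated vectors are exceptional.
-/

set_option autoImplicit false

open Polynomial NumberField
open Pool.Agent.Helper85_Leo (LeopoldtAt)
open Pool.Agent.LUB (FullRank sp spr LogMod EvhStmt EllStmt UnpConcl InvStmt CriConcl NvnConcl
  MainStmt)
open Pool.Agent.Helper65_Dens (Ix prodPoly Sep)

namespace Pool.Agent.LPW

/-- The index set of the coefficients of a family. -/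
abbrev Idx2 (n r D : ℕ) : Type :=
  (Fin n × Fin (D + 1) × Fin (D + 1)) ⊕ (Fin r × Fin (D + 1) × Fin (D + 1) × Fin (D + 1))

/-- The coefficients of a family. -/
noncomputable def par2 (n : ℕ) {r : ℕ} (D : ℕ) (f : (MvPolynomial (Fin 2) ℤ)[X])
    (u : Fin r → (MvPolynomial (Fin 2) ℤ)[X]) : Idx2 n r D → ℤ :=
  Sum.elim (fun s => MvPolynomial.coeff (Finsupp.single 0 (s.2.1 : ℕ) +
      Finsupp.single 1 (s.2.2 : ℕ)) (f.coeff s.1))
    (fun s => MvPolynomial.coeff (Finsupp.single 0 (s.2.2.1 : ℕ) +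
      Finsupp.single 1 (s.2.2.2 : ℕ)) ((u s.1).coeff s.2.1))

/-- The family lies in the class of `a` modulo `p ^ 3`. -/
def InCls2 (p n : ℕ) {r : ℕ} (D : ℕ) (a : Idx2 n r D → ℤ) (f : (MvPolynomial (Fin 2) ℤ)[X])
    (u : Fin r → (MvPolynomial (Fin 2) ℤ)[X]) : Prop :=
  Fam2 n D f u ∧ ∀ s, (p : ℤ) ^ 3 ∣ par2 n D f u s - a s

/-- NO2 (60 lines). Uniform domination of the coefficients.
PROOF. The ideal of the noetherian ring `R` generated by all coefficients `hc g i j` is generated by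
those with `i + j ≤ K` for some `K`: `hc g i j = ∑ h_kl hc g k l`, and the norm of `φ` of it is at
most the maximum of the `‖φ (hc g k l)‖` (as in row NOE, Helper87_LUB/NOE.lean). -/
def No2Stmt : Prop := ∀ (p : ℕ) [Fact p.Prime] (R : Type) [CommRing R] [IsNoetherianRing R]
  (g : PowerSeries (PowerSeries R)), ∃ K : ℕ, ∀ φ : R →+* ℤ_[p],
    Dom K (PowerSeries.map (PowerSeries.map φ) g)

/-- The conclusion of CL2. -/
def Cl2Concl : Prop := ∀ (p : ℕ) [Fact p.Prime] (n r D : ℕ) (a : Idx2 n r D → ℤ) (c : Fin 2 → ℤ),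
  (∃ (f : (MvPolynomial (Fin 2) ℤ)[X]) (u : Fin r → (MvPolynomial (Fin 2) ℤ)[X]),
    InCls2 p n D a f u ∧ ∃ P : Fin 2 → ℤ, (∀ i, (p : ℤ) ^ 3 ∣ P i - c i) ∧
      ∀ i, ∃ a b : ℤ[X], spr2 (u i) P * a + spr2 f P * b = 1) →
  ∃ (M : ℕ) (_ : 0 < M) (R : Type) (_ : CommRing R) (_ : IsNoetherianRing R)
    (g : (Fin r → Fin n) → PowerSeries (PowerSeries R)),
    ∀ (f : (MvPolynomial (Fin 2) ℤ)[X]) (u : Fin r → (MvPolynomial (Fin 2) ℤ)[X]),
    InCls2 p n D a f u → ∀ T : Fin 2 → PowerSeries (PowerSeries ℤ_[p]),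
      T 0 = PowerSeries.C (PowerSeries.C (c 0 : ℤ_[p])) +
        (p : PowerSeries (PowerSeries ℤ_[p])) ^ 2 * PowerSeries.C PowerSeries.X →
      T 1 = PowerSeries.C (PowerSeries.C (c 1 : ℤ_[p])) +
        (p : PowerSeries (PowerSeries ℤ_[p])) ^ 2 * PowerSeries.X →
      ∃ (φ : R →+* ℤ_[p]) (w b l : Fin r → (PowerSeries (PowerSeries ℤ_[p]))[X]),
        (∀ i, spr2 (u i) T ^ M =
          1 + C ((p : PowerSeries (PowerSeries ℤ_[p])) ^ 2) * w i + spr2 f T * b i) ∧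
        (∀ i, LogMod p (spr2 f T) (w i) (l i)) ∧ (∀ i, (l i).degree < n) ∧
        ∀ J : Fin r → Fin n, PowerSeries.map (PowerSeries.map φ) (g J) =
          (Matrix.of fun i k => (l i).coeff (J k)).det

/-- CL2 (STRONG, 250 lines; helper42). The universal two-parameter family of a class.
PROOF. Copy of row CLA (Helper42_LUB/CLA.lean) with
`S = PowerSeries (PowerSeries (MvPowerSeries (Idx2 n r D) ℤ_p))`, `A_s = a s + p ^ 2 X_s`,
`T 0 = c 0 + p ^ 2 C X`, `T 1 = c 1 + p ^ 2 X`. -/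
def Cl2Stmt : Prop := EvhStmt → EllStmt → UnpConcl → Cl2Concl

/-- The conclusion of NV2. -/
def Nv2Concl : Prop := ∀ (p : ℕ) [Fact p.Prime] (r : ℕ) (f : (MvPolynomial (Fin 2) ℤ)[X])
  (u : Fin r → (MvPolynomial (Fin 2) ℤ)[X]), f.Monic → ∀ P c : Fin 2 → ℤ,
  (∀ i, (p : ℤ) ^ 3 ∣ P i - c i) →
  FullRank (res f P ![0, 1]) (fun i => res (u i) P ![0, 1]) →
  ((spr2 f P).map (Int.castRingHom ℚ)).Separable →
  (∀ i, IsCoprime ((spr2 f P).map (Int.castRingHom ℚ)) ((spr2 (u i) P).map (Int.castRingHom ℚ))) →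
  ∀ T : Fin 2 → PowerSeries (PowerSeries ℤ_[p]),
    T 0 = PowerSeries.C (PowerSeries.C (c 0 : ℤ_[p])) +
      (p : PowerSeries (PowerSeries ℤ_[p])) ^ 2 * PowerSeries.C PowerSeries.X →
    T 1 = PowerSeries.C (PowerSeries.C (c 1 : ℤ_[p])) +
      (p : PowerSeries (PowerSeries ℤ_[p])) ^ 2 * PowerSeries.X →
  ∀ (M : ℕ), 0 < M → ∀ w b l : Fin r → (PowerSeries (PowerSeries ℤ_[p]))[X],
    (∀ i, spr2 (u i) T ^ M =
      1 + C ((p : PowerSeries (PowerSeries ℤ_[p])) ^ 2) * w i + spr2 f T * b i) →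
    (∀ i, LogMod p (spr2 f T) (w i) (l i)) → (∀ i, (l i).degree < f.natDegree) →
    ∃ J : Fin r → Fin f.natDegree, (Matrix.of fun i k => (l i).coeff (J k)).det ≠ 0

/-- NV2 (120 lines). Non-vanishing of a minor, from the restriction to a line.
PROOF. Let `z = (P 0 - c 0) / p ^ 2` in `p ℤ_p` and `ev : ℤ_p[[X]] → ℤ_p` the evaluation at `z`
(EVH for `σ = Unit`: `PowerSeries ℤ_p` is `MvPowerSeries Unit ℤ_p`), `ψ = PowerSeries.map ev`, a
homomorphism from `ℤ_p[[X₀]][[X₁]]` to `ℤ_p[[X]]` with `ψ (T 0) = P 0`, `ψ (T 1) = c 1 + p ^ 2 X`. So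
`ψ` maps `spr2 f T` to `spr (res f P ![0, 1]) T'` with `T' = C (c 1 - P 1) + p ^ 2 X` (both are `f` at
the point `(P 0, c 1 + p ^ 2 X)`), the same for the `u i`, and it preserves the identities and `LogMod`
(`ψ` is `ℤ_p`-linear) and the bounds of the degrees. NVN for the family `res f P ![0, 1]`
(monic of the same degree), `t₀ = 0`, `T₁ = c 1 - P 1` gives a minor of the `ψ (l i)` which is not
zero; it is `ψ` of the minor of the `l i`. -/
def Nv2Stmt : Prop := EvhStmt → NvnConcl → Nv2Concl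

/-- The conclusion of COV. -/
def CovConcl : Prop := ∀ (p : ℕ) [Fact p.Prime] (n r D : ℕ) (a : Idx2 n r D → ℤ) (c : Fin 2 → ℤ)
  (ε : ℝ), 0 < ε → ∃ (d : ℕ) (B : ℝ), ∀ (f : (MvPolynomial (Fin 2) ℤ)[X])
  (u : Fin r → (MvPolynomial (Fin 2) ℤ)[X]), InCls2 p n D a f u → ∀ A : Set (Fin 2 → ℤ),
  LineFull f u A → ∀ N : ℕ, 1 ≤ N → ∃ 𝓕 : Finset (MvPolynomial (Fin 2) ℤ),
    (𝓕.card : ℝ) ≤ B * (N : ℝ) ^ ε ∧ (∀ Φ ∈ 𝓕, Φ ≠ 0 ∧ Φ.totalDegree ≤ d) ∧
    ∀ P ∈ A, (∀ i, |P i| ≤ N) → (∀ i, (p : ℤ) ^ 3 ∣ P i - c i) →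
      ExcPt p n (spr2 f P) (fun i => spr2 (u i) P) → ∃ Φ ∈ 𝓕, MvPolynomial.eval P Φ = 0

/-- COV (STRONG, 300 lines). The exceptional points of a class lie on few curves.
PROOF. As row CLB (Helper31_LUB/CLB.lean). If there is no family in the class with a point `P ≡ c`
for which the `spr2 (u i) P` are invertible modulo `spr2 f P`, then there is no exceptional point
`P ≡ c` (INV) and `𝓕 = ∅`, `d = 0`, `B = 0` work. Otherwise take `M`, `R`, `g` from CL2, for every `J` the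
number `K J` of NO2 for `g J` and `d J`, `B J` of STP for `K J`; `d` = the maximum, `B` = the sum of
the `|B J|`. For a family, `A`, `N` let `Z` be the (finite) set of the exceptional points `P ∈ A`,
`|P i| ≤ N`, `P ≡ c`. If it is empty, `𝓕 = ∅`. Otherwise let `P₀ ∈ Z`: `spr2 f P₀` is the minimal
polynomial of `θ` (monic of degree `n = [K : ℚ]`), irreducible and separable over `ℚ`, coprime to
the `spr2 (u i) P₀` (units of `𝓞 K` are not zero); `LineFull` for `P₀`, `v = ![0, 1]` and NV2 give `J`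
such that the minor `H = map φ (g J) = det ((l i).coeff (J k))` is not zero. For every `P ∈ Z` let
`P i = c i + p ^ 3 x i`, `x i ∈ ℤ_p`; `φ₀`, `φ₁` the evaluations with `φ₀ X = p x 0`, `φ₁ X = p x 1`
(EVH), `ψ = φ₁ ∘ map φ₀`: it maps `T i` to `P i`, `spr2 f T` to `spr2 f P` over `ℤ_p`, and the images
of `w`, `b`, `l` satisfy the hypotheses of CRI; as `LeopoldtAt K p` fails, all minors of the images of
the `l i` vanish, in particular `ψ H = 0`, i.e. `Zero H (x 0) (x 1)`. STP gives `𝓕`. -/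
def CovStmt : Prop := EvhStmt → No2Stmt → InvStmt → CriConcl → Nv2Concl → Cl2Concl → StpConcl →
  CovConcl

/-- The conclusion of LNB. -/
def LnbConcl : Prop := ∀ (p : ℕ) [Fact p.Prime] (n r D : ℕ), ∃ B : ℕ,
  ∀ (f : (MvPolynomial (Fin 2) ℤ)[X]) (u : Fin r → (MvPolynomial (Fin 2) ℤ)[X]), Fam2 n D f u →
  ∀ A : Set (Fin 2 → ℤ), LineFull f u A → ∀ G : MvPolynomial (Fin 2) ℚ, G.totalDegree = 1 →
  {P : Fin 2 → ℤ | P ∈ A ∧ MvPolynomial.eval (fun i => (P i : ℚ)) G = 0 ∧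
    ExcPt p n (spr2 f P) (fun i => spr2 (u i) P)}.encard ≤ B

/-- LNB (150 lines). Exceptional points on lines.
PROOF. `B` is the bound of `LUB.MainStmt` for `p`, `n`, `r`, `D`. `G = α X₀ + β X₁ + γ` with rational
`(α, β) ≠ 0`. If the set is empty we are done; otherwise let `P₀` be a point of it, and let
`v ∈ ℤ ^ 2` be a primitive vector with `α v 0 + β v 1 = 0` (a multiple of `(β, - α)`). Every integral
point of the line is `P₀ + t v` for a unique integer `t` (primitive). The point `P₀ + t v` is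
exceptional iff `t` is exceptional for the one-parameter family `res f P₀ v`, `res (u i) P₀ v`
(`sp (res f P₀ v) t = spr2 f (P₀ + t v)`; the family is monic of degree `n`, its coefficients have
degree at most `D`), which has full rank by `LineFull`. -/
def LnbStmt : Prop := MainStmt → LnbConcl

/-- The conclusion of CUR. -/
def CurConcl : Prop := ∀ (p : ℕ) [Fact p.Prime] (n r D d : ℕ) (ε : ℝ), 0 < ε → ∃ B : ℝ,
  ∀ (f : (MvPolynomial (Fin 2) ℤ)[X]) (u : Fin r → (MvPolynomial (Fin 2) ℤ)[X]), Fam2 n D f u →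
  ∀ A : Set (Fin 2 → ℤ), LineFull f u A → ∀ Φ : MvPolynomial (Fin 2) ℤ, Φ ≠ 0 →
  Φ.totalDegree ≤ d → ∀ N : ℕ, 1 ≤ N →
  (({P : Fin 2 → ℤ | P ∈ A ∧ (∀ i, |P i| ≤ N) ∧ MvPolynomial.eval P Φ = 0 ∧
    ExcPt p n (spr2 f P) (fun i => spr2 (u i) P)}).ncard : ℝ) ≤ B * (N : ℝ) ^ (1 / 2 + ε)

/-- CUR (150 lines). Exceptional points on algebraic curves.
PROOF. `Φ` over `ℚ` is not zero, and it is associated to a product of irreducible polynomials
(`UniqueFactorizationMonoid` for `MvPolynomial (Fin 2) ℚ`); each has total degree at least one, so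
there are at most `d` of them, of total degree at most `d`. A zero of `Φ` is a zero of one of them.
For those of total degree one use LNB (`N ^ (..) ≥ 1`), for the others BPB. -/
def CurStmt : Prop := LnbConcl → BpbConcl → CurConcl

/-- The conclusion of UPC. -/
def UpcConcl : Prop := ∀ (p : ℕ) [Fact p.Prime] (n r D : ℕ) (ε : ℝ), 0 < ε → ∃ B : ℝ,
  ∀ (f : (MvPolynomial (Fin 2) ℤ)[X]) (u : Fin r → (MvPolynomial (Fin 2) ℤ)[X]), Fam2 n D f u →
  ∀ A : Set (Fin 2 → ℤ), LineFull f u A → ∀ N : ℕ, 1 ≤ N →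
  (({P : Fin 2 → ℤ | P ∈ A ∧ (∀ i, |P i| ≤ N) ∧
    ExcPt p n (spr2 f P) (fun i => spr2 (u i) P)}).ncard : ℝ) ≤ B * (N : ℝ) ^ (1 / 2 + ε)

/-- UPC (120 lines). Sum over the classes.
PROOF. There are finitely many classes: representatives `a s = (α s).val`, `α : Idx2 n r D →
ZMod (p ^ 3)`, `c i = (γ i).val`, `γ : Fin 2 → ZMod (p ^ 3)`. For every class take `d`, `B₁` from COV
for `ε / 2`; `d` = the maximum, `B₂` from CUR for `d`, `ε / 2`. In the class of the family and of the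
point the exceptional points are covered by at most `B₁ N ^ (ε / 2)` curves, each of which contains
at most `B₂ N ^ (1 / 2 + ε / 2)`. -/
def UpcStmt : Prop := CovConcl → CurConcl → UpcConcl

/-- The main theorem. -/
def UpwStmt : Prop := ∀ (p : ℕ) [Fact p.Prime] (n r D : ℕ) (ε : ℝ), 0 < ε → ∃ B : ℝ,
  ∀ (f : (MvPolynomial (Fin 2) ℤ)[X]) (u : Fin r → (MvPolynomial (Fin 2) ℤ)[X]), Fam2 n D f u →
  ∀ A : Set (Fin 2 → ℤ), LineFull f u A → ∀ (lo : Fin 2 → ℤ) (N : ℕ), 1 ≤ N →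
  (({P : Fin 2 → ℤ | P ∈ A ∧ (∀ i, lo i ≤ P i ∧ P i < lo i + N) ∧
    ExcPt p n (spr2 f P) (fun i => spr2 (u i) P)}).ncard : ℝ) ≤ B * (N : ℝ) ^ (1 / 2 + ε)

/-- TRL (150 lines). Translation.
PROOF. Let `τ` be the automorphism `X i ↦ X i + lo i` of `ℤ[S, T]`, `f' = f.map τ`, `u' i =
(u i).map τ`: the family is again monic of degree `n`, total degrees do not increase, and
`spr2 f' P = spr2 f (P + lo)`, `res f' P v = res f (P + lo) v`. Put `A' = {P | P + lo ∈ A}`. The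
points `P` of the square correspond to the points `P - lo` with `0 ≤ (P - lo) i < N`. Apply UPC. -/
def TrlStmt : Prop := UpcConcl → UpwStmt

/-- SLC (STRONG, 200 lines). Slicing a box by squares in the plane of two coordinates.
PROOF. Group the vectors of the box by the coordinates `x ∉ {q 0, q 1}` and the numbers
`⌊(a (q k) - lo (q k)) / M⌋`, `k = 0, 1`. There are at most `∏_{x ∉ {q 0, q 1}} N x · ∏_k ⌈N (q k) / M⌉`
groups, and `⌈N / M⌉ ≤ 2 N / M` as `M ≤ N`. The vectors of one group are of the form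
`shg q a₀ P` with a fixed `a₀` (with `a₀ (q k) = 0`) and `l k ≤ P k < l k + M`, different for different
`P`, so there are at most `b` of them in `S`. In total at most `4 b ∏ N / M ^ 2`. -/
def SlcStmt : Prop := ∀ (κ : Type) [Fintype κ] [DecidableEq κ] (q : Fin 2 → κ),
  Function.Injective q → ∀ (S : Set (κ → ℤ)) (lo : κ → ℤ) (N : κ → ℕ) (M : ℕ), 1 ≤ M →
  (∀ x, M ≤ N x) → ∀ b : ℝ, 0 ≤ b → (∀ (a : κ → ℤ) (l : Fin 2 → ℤ),
    (({P : Fin 2 → ℤ | (∀ i, l i ≤ P i ∧ P i < l i + M) ∧ shg q a P ∈ S}).ncard : ℝ) ≤ b) →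
  (M : ℝ) ^ 2 * (({a : κ → ℤ | (∀ x, lo x ≤ a x ∧ a x < lo x + N x) ∧ a ∈ S}).ncard : ℝ) ≤
    4 * b * ∏ x, (N x : ℝ)

/-- The corollary for the family of products. -/
def Bx2Concl : Prop := ∀ (r₁ r₂ : ℕ), 3 ≤ r₁ + r₂ → ∀ (p : ℕ) [Fact p.Prime] (ε : ℝ), 0 < ε →
  ∃ B : ℝ, ∀ (lo : Ix r₁ r₂ → ℤ) (N : Ix r₁ r₂ → ℕ) (M : ℕ), 1 ≤ M → (∀ q, M ≤ N q) →
  (M : ℝ) ^ (3 / 2 - ε) * (({a : Ix r₁ r₂ → ℤ | (∀ q, lo q ≤ a q ∧ a q < lo q + N q) ∧ Sep a ∧
    ¬ ∀ (K : Type) [Field K] [NumberField K] (θ : K), IntermediateField.adjoin ℚ {θ} = ⊤ →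
      aeval θ (prodPoly a - 1) = 0 → LeopoldtAt K p}).ncard : ℝ) ≤ B * ∏ q, (N q : ℝ)

/-- BX2 (STRONG, 200 lines). The family of products.
PROOF. Let `r = r₁ + r₂ - 1`, `i 0 ≠ i 1` two factors and `e : Fin r → factors` an enumeration of
those different from `i 1`; `n = D = r₁ + 2 r₂`. Take `B` from UPW. `q k = cst (i k)`,
`S = {a | Sep a ∧ ¬ ..}`. For a base vector `a` and a square `l`, `M` let
`A = {P | Sep (shg q a P)}`; the family `ff a i` with the units `gg a i (e _)` satisfies `Fam2` (SPG) and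
`LineFull` on `A` (FRL). If `shg q a P ∈ S` then `P` is exceptional: the field `K` and the root `θ`
with failing Leopoldt; `θ` is integral (the polynomial is monic), `[K : ℚ] = r₁ + 2 r₂` and
`rank + 1 = r₁ + r₂` (`Sep.signature`), and the `fac (..) j (θ)` are units since their product is one
(`aeval θ (prodPoly - 1) = 0`). So by UPW there are at most `b = |B| M ^ (1 / 2 + ε)` such `P`, and SLC
gives `M ^ 2 · # ≤ 4 |B| M ^ (1 / 2 + ε) ∏ N`; divide by `M ^ (1 / 2 + ε)`. -/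
def Bx2Stmt : Prop := SpgStmt → FrlConcl → UpwStmt → SlcStmt → Bx2Concl

end Pool.Agent.LPW
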