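import Pool.Agent.LPW.StmtsE

/-!
# Squad LPW, block F: the condition of full rank at infinity is multiplicative independence

In `LUB.MainStmt` and `UpwStmt` the units have full rank at infinity. Here this is deduced from the
multiplicative independence of the units modulo constants: THEOREM (INM). For all `n`, `r`, `D`
there is `K` such that for every one-parameter family with units `u 1, ..., u r` which are
multiplicatively independent modulo constants there are at most `K` exceptional integers `t`.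
THEOREM (IN2). The same for the theorem UPW on two-parameter families.
-/

set_option autoImplicit false

open Polynomial NumberField
open Pool.Agent.Helper85_Leo (LeopoldtAt)
open Pool.Agent.LUB (FullRank sp spr Exceptional Fam MainStmt SphStmt SpfStmt BndStmt DepStmt)

namespace Pool.Agent.LPW

/-- The `u i (T, Θ)`, where `T` is transcendental over `ℚ` and `Θ` is a root of `f(T, Y)`, are
multiplicatively independent modulo the algebraic numbers (modulo constants). -/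
def Ind {r : ℕ} (f : ℤ[X][X]) (u : Fin r → ℤ[X][X]) : Prop :=
  ∃ (Ω : Type) (_ : Field Ω) (_ : CharZero Ω) (T Θ : Ω), Transcendental ℚ T ∧
    (spr f T).eval Θ = 0 ∧
    ∀ m : Fin r → ℤ, IsAlgebraic ℚ (∏ i, (spr (u i) T).eval Θ ^ m i) → m = 0

/-- On every line through a point of `A` the units are multiplicatively independent modulo
constants. -/
def LineInd {r : ℕ} (f : (MvPolynomial (Fin 2) ℤ)[X]) (u : Fin r → (MvPolynomial (Fin 2) ℤ)[X])
    (A : Set (Fin 2 → ℤ)) : Prop :=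
  ∀ P ∈ A, ∀ v : Fin 2 → ℤ, v ≠ 0 → Ind (res f P v) fun i => res (u i) P v

/-- CHG (STRONG, 200 lines). The characteristic polynomial of `w` modulo `f`, with degrees.
PROOF. Let `C` be the companion matrix of `f` over `R` (size `n`; the case `n = 0` is trivial,
`g = 1`): `C e_k = e_(k+1)` for `k < n - 1`, `C e_(n-1) = - ∑ f_j e_j`, so for a polynomial `h` of
degree `< n` the first column of `h(C)` is the vector of the coefficients of `h`, and `f(C) = 0`; or
use `Algebra.leftMulMatrix` for the power basis of `AdjoinRoot f`. Let `W = w(C)` and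
`g = W.charpoly`. (1) Degrees: the entries of `C ^ k` are in `F (k D)` (induction; `- x ∈ F a` for
`x ∈ F a`), those of `W` in `F (D + D * D)` (`1 ∈ F 0 ≤ F D`), and the coefficients of `g` are sums
of products of at most `n` entries of `W` (and of `1 ∈ F 0`): e.g. induction over the factors of a
product of `n` polynomials with coefficients in `F (D + D * D)`. (2) `g(W) = 0` (Cayley and Hamilton)
is `(g ∘ w)(C) = 0`, and if `ρ` is the remainder of `g ∘ w` modulo the monic `f`, then `ρ(C) = 0`, so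
`ρ = 0` by its first column. (3) Over `S`: let `V = (θ j ^ k)` be the Vandermonde matrix; by
`f(θ j) = 0` one has `V φ(C) = diag(θ) V`, so `V φ(W) = diag(w(θ j)) V` and
`V (X - φ(W)) = diag(X - w(θ j)) V`; take determinants and cancel `det V ≠ 0` (`θ` injective, `S` a
domain). -/
def ChgStmt : Prop := ∀ (R : Type) [CommRing R] (F : ℕ → AddSubgroup R), Monotone F →
  (1 : R) ∈ F 0 → (∀ a b x y, x ∈ F a → y ∈ F b → x * y ∈ F (a + b)) → ∀ (n D : ℕ) (f w : R[X]),
  f.Monic → f.natDegree = n → (∀ j, f.coeff j ∈ F D) → w.natDegree ≤ D → (∀ j, w.coeff j ∈ F D) →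
  ∃ g : R[X], g.Monic ∧ g.natDegree = n ∧ (∀ l, g.coeff l ∈ F (n * (D + D * D))) ∧
    f ∣ g.comp w ∧
    ∀ (S : Type) [CommRing S] [IsDomain S] (φ : R →+* S) (θ : Fin n → S), Function.Injective θ →
      f.map φ = ∏ j, (X - C (θ j)) → g.map φ = ∏ j, (X - C ((w.map φ).eval (θ j)))

/-- UNT (30 lines). Polynomials of norm `± 1` are units modulo `f`.
PROOF. `g = X * q + C (g.coeff 0)` (`Polynomial.divX_mul_X_add`), so
`g.comp w = w * q.comp w + C (g.coeff 0)` is `f * h`. Take `v = - C (g.coeff 0) * q.comp w` and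
`b = - C (g.coeff 0) * h`. -/
def UntStmt : Prop := ∀ (R : Type) [CommRing R] (f w g : R[X]), f ∣ g.comp w →
  g.coeff 0 ^ 2 = 1 → ∃ v b : R[X], w * v = 1 + f * b

/-- NEX (120 lines). The norm of a unit is `± 1`.
PROOF. `F` is the minimal polynomial of `θ` (monic of degree `n = [K : ℚ]`, `θ` generates `K`), and
over `ℂ` it is `∏ (X - σ θ)` over the embeddings `σ : K → ℂ` (`NumberField.Embeddings`,
`Algebra.charpoly`/`minpoly` and separability; `n` different roots), with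
`θ' : Fin n → ℂ` an enumeration of the `σ θ`. So `∏ (X - w(θ' j))` has the constant coefficient
`± ∏ σ (w(θ)) = ± N(w(θ))` (`Algebra.norm_eq_prod_embeddings`), and the norm of a unit of `𝓞 K` is
`± 1` (`NumberField.isUnit_iff_norm`). By the hypothesis it is the image of `a`. -/
def NexStmt : Prop := ∀ (n : ℕ) (F W : ℤ[X]) (a : ℤ), F.Monic → F.natDegree = n →
  (∀ θ' : Fin n → ℂ, F.map (Int.castRingHom ℂ) = ∏ j, (X - C (θ' j)) → Function.Injective θ' →
    (a : ℂ) = ∏ j, (W.map (Int.castRingHom ℂ)).eval (θ' j) ∨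
    (a : ℂ) = - ∏ j, (W.map (Int.castRingHom ℂ)).eval (θ' j)) →
  (∃ (K : Type) (_ : Field K) (_ : NumberField K) (θ : 𝓞 K), aeval θ F = 0 ∧
    IntermediateField.adjoin ℚ {(θ : K)} = ⊤ ∧ Module.finrank ℚ K = n ∧ IsUnit (aeval θ W)) →
  a ^ 2 = 1

/-- IRR (40 lines). A family with an irreducible member is irreducible.
PROOF. `F = f.map φ` is monic of degree `n = [K : ℚ]` with the root `θ`, a generator of `K`, so over
`ℚ` it is the minimal polynomial of `θ`, irreducible; `f.map (ℤ → ℚ ∘ φ)` is irreducible and `f` is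
monic: `Polynomial.Monic.irreducible_of_irreducible_map`. -/
def IrrStmt : Prop := ∀ (R : Type) [CommRing R] [IsDomain R] (f : R[X]) (φ : R →+* ℤ) (n : ℕ),
  f.Monic → f.natDegree = n →
  (∃ (K : Type) (_ : Field K) (_ : NumberField K) (θ : 𝓞 K), aeval θ (f.map φ) = 0 ∧
    IntermediateField.adjoin ℚ {(θ : K)} = ⊤ ∧ Module.finrank ℚ K = n) → Irreducible f

/-- SPL (100 lines). The splitting of an irreducible family.
PROOF. `Ω' = AlgebraicClosure Ω`; `spr f T` is monic of degree `n`, so over `Ω'` it is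
`∏ (X - θ j)`. `f` is irreducible over `ℤ[X]`, hence over its field of fractions (Gauss:
`Polynomial.Monic.irreducible_iff_irreducible_map_fraction_map`, `ℤ[X]` is integrally closed), which
embeds into `Ω'` (`T` is transcendental), so `f` is separable over it (characteristic `0`) and the
roots `θ j` are different; `Θ` is one of them. -/
def SplStmt : Prop := ∀ (Ω : Type) [Field Ω] [CharZero Ω] (T : Ω), Transcendental ℚ T →
  ∀ (f : ℤ[X][X]) (n : ℕ), f.Monic → f.natDegree = n → Irreducible f →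
  ∃ (Ω' : Type) (_ : Field Ω') (_ : CharZero Ω') (ι : Ω →+* Ω') (θ : Fin n → Ω'),
    Function.Injective θ ∧ spr f (ι T) = ∏ j, (X - C (θ j)) ∧ Transcendental ℚ (ι T)

/-- CNJ (120 lines). Conjugate roots.
PROOF. The kernel of `ℤ[X][X] → Ω`, `h ↦ h(T, θ)` is the ideal generated by `f`: if `h(T, θ) = 0`,
divide by the monic `f`; the remainder `ρ` has degree `< n` and `ρ(T, θ) = 0`; `f` is irreducible
over the field of fractions of `ℤ[X]` (Gauss), so it is the minimal polynomial of `θ` over `ℚ(T)`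
and `ρ = 0`. The same for `Ω'`, `T'`, `θ'`. Hence `h(T, θ) = 0` iff `h(T', θ') = 0` for all `h`. If some
`u i (T, θ) = 0` with `m i ≠ 0`, then both products are `0`. Otherwise the product is `a(T, θ) / b(T, θ)`
with `a = ∏ u i ^ (m i).toNat`, `b = ∏ u i ^ (- m i).toNat`, both not zero at `(T, θ)` and at
`(T', θ')`; a relation `∑ c_k (a / b) ^ k = 0`, `k ≤ d`, with integers `c_k`, not all zero
(`IsAlgebraic` over `ℤ`), gives `h(T, θ) = 0` for `h = ∑ c_k a ^ k b ^ (d - k)`, so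
`h(T', θ') = 0` and `∑ c_k (a' / b') ^ k = 0`. -/
def CnjStmt : Prop := ∀ (Ω Ω' : Type) [Field Ω] [CharZero Ω] [Field Ω'] [CharZero Ω'] (T θ : Ω)
  (T' θ' : Ω'), Transcendental ℚ T → Transcendental ℚ T' → ∀ (r : ℕ) (f : ℤ[X][X])
  (u : Fin r → ℤ[X][X]), f.Monic → Irreducible f → (spr f T).eval θ = 0 →
  (spr f T').eval θ' = 0 → ∀ m : Fin r → ℤ,
  IsAlgebraic ℚ (∏ i, (spr (u i) T).eval θ ^ m i) →
  IsAlgebraic ℚ (∏ i, (spr (u i) T').eval θ' ^ m i)

/-- GRO (STRONG, 200 lines). Elements of small growth are algebraic over `ℚ`.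
PROOF. Let `B = Algebra.adjoin ℤ ({T} ∪ range θ)`. CHG for `R = ℤ[X]`, `F = ⊤` (the constant
function `fun _ => ⊤`), `D` any bound, gives `g : ℤ[X][X]` monic of degree `n` with
`spr g T = ∏ (X - C (x j))` in `Ω[X]` (`φ = eval₂RingHom (Int.castRingHom Ω) T`; `n` is the degree
of `f`, as `spr f T` is monic of degree `f.natDegree`). This is an identity in `B[X]` (`B → Ω` is
injective), so `(sp g t).map (Int.castRingHom ℂ) = ∏ (X - C (s t (x j)))` for all `t`. Let
`G_l = g.coeff l ∈ ℤ[X]`; then `G_l(t)` is up to sign an elementary symmetric function of the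
`s t (x j)`, so `|G_l(t)| ≤ 2 ^ n t ^ (δ n)` for `t` in a set of `𝒰`
(`Multiset.prod_X_sub_C_coeff`/`Finset.esymm`, or the lemma `Polynomial.coeff_le_of_roots_le`, or
induction on the number of factors). A non-constant integral polynomial has `|G_l(t)| ≥ t - C₀`
for all large `t` (its degree is at least one, or: `Polynomial.tendsto_abs_...`,
`isEquivalent_atTop_lead`), and `δ n < 1`, a contradiction for `t → ∞`. So all coefficients of `g`
are constants: `g = G.map C` with `G ∈ ℤ[X]` monic and `G(x j) = 0`. -/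
def GroStmt : Prop := ChgStmt → ∀ (Ω : Type) [Field Ω] [CharZero Ω] (T : Ω), Transcendental ℚ T →
  ∀ (f w : ℤ[X][X]) (n : ℕ) (θ : Fin n → Ω), Function.Injective θ → f.Monic →
  spr f T = ∏ j, (X - C (θ j)) →
  ∀ (s : ℕ → (Algebra.adjoin ℤ ({T} ∪ Set.range θ) →+* ℂ)),
  (∀ t, s t ⟨T, Algebra.subset_adjoin (by simp)⟩ = t) →
  ∀ x : Fin n → Algebra.adjoin ℤ ({T} ∪ Set.range θ),
  (∀ j, (x j : Ω) = (spr w T).eval (θ j)) →
  ∀ (𝒰 : Filter ℕ) [𝒰.NeBot], 𝒰 ≤ Filter.atTop → ∀ δ : ℝ, 0 ≤ δ → δ * n < 1 →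
  (∀ j, ∀ᶠ t in 𝒰, ‖s t (x j)‖ ≤ (t : ℝ) ^ δ) → ∀ j, IsAlgebraic ℚ (x j : Ω)

/-- The conclusion of GRO. -/
def GroConcl : Prop := ∀ (Ω : Type) [Field Ω] [CharZero Ω] (T : Ω), Transcendental ℚ T →
  ∀ (f w : ℤ[X][X]) (n : ℕ) (θ : Fin n → Ω), Function.Injective θ → f.Monic →
  spr f T = ∏ j, (X - C (θ j)) →
  ∀ (s : ℕ → (Algebra.adjoin ℤ ({T} ∪ Set.range θ) →+* ℂ)),
  (∀ t, s t ⟨T, Algebra.subset_adjoin (by simp)⟩ = t) →
  ∀ x : Fin n → Algebra.adjoin ℤ ({T} ∪ Set.range θ),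
  (∀ j, (x j : Ω) = (spr w T).eval (θ j)) →
  ∀ (𝒰 : Filter ℕ) [𝒰.NeBot], 𝒰 ≤ Filter.atTop → ∀ δ : ℝ, 0 ≤ δ → δ * n < 1 →
  (∀ j, ∀ᶠ t in 𝒰, ‖s t (x j)‖ ≤ (t : ℝ) ^ δ) → ∀ j, IsAlgebraic ℚ (x j : Ω)

/-- DIO (120 lines). Small integral combinations.
PROOF. By DEP (for `S = ℝ`) there is `a ≠ 0` with `∑ a i Λ i j = 0` for all `j`; scale `a` such that
`|a i₀| = 1` for some `i₀`. For `q ∈ ℕ` consider the vector of the fractional parts of `q a` in
`[0, 1] ^ r`; by pigeonhole (or compactness) for `η ∈ (0, 1/2)` there are `q < q'` whose fractional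
parts differ by at most `η` in every coordinate; `m i = ⌊q' a i⌋ - ⌊q a i⌋` satisfies
`|(q' - q) a i - m i| ≤ η`. As `|(q' - q) a i₀| ≥ 1`, `m i₀ ≠ 0`. And
`|∑ m i Λ i j| = |∑ (m i - (q' - q) a i) Λ i j| ≤ η ∑ |Λ i j| < δ` for small `η`. -/
def DioStmt : Prop := DepStmt → ∀ (r n : ℕ) (Λ : Fin r → Fin n → ℝ),
  (∀ π : Fin r → Fin n, (Matrix.of fun i j => Λ i (π j)).det = 0) → ∀ δ : ℝ, 0 < δ →
  ∃ m : Fin r → ℤ, m ≠ 0 ∧ ∀ j, |∑ i, (m i : ℝ) * Λ i j| < δ

/-- The conclusion of DIO. -/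
def DioConcl : Prop := ∀ (r n : ℕ) (Λ : Fin r → Fin n → ℝ),
  (∀ π : Fin r → Fin n, (Matrix.of fun i j => Λ i (π j)).det = 0) → ∀ δ : ℝ, 0 < δ →
  ∃ m : Fin r → ℤ, m ≠ 0 ∧ ∀ j, |∑ i, (m i : ℝ) * Λ i j| < δ

/-- FRI (STRONG, 250 lines). Independent units have full rank at infinity.
PROOF. Let `B = Algebra.adjoin ℤ ({T} ∪ range θ)`, `y i j = u i (T, θ j)`, `z i j = v i (T, θ j)` in
`B`; `y i j * z i j = 1` (`f(T, θ j) = 0`). For `t : ℕ` choose `s t : B → ℂ` with `s t T = t` (SPH, the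
`θ j` are roots of the monic `spr f T`). Suppose that `FullRank` fails. Let `𝒰` be an ultrafilter on
`ℕ`, `𝒰 ≤ atTop` (`Filter.hyperfilter ℕ`). By BND `log ‖s t (y i j)‖ / log t` is bounded for large
`t`; let `Λ i j` be its limit along `𝒰`. For `π : Fin r → Fin n` and `c > 0`: the
`s t (θ (π j))` are roots of `sp f t` (SPF), so for all but finitely many `t`
`|det (log ‖s t (y i (π j))‖)| < c (log t) ^ r` (as `FullRank` fails); divide by `(log t) ^ r`:
`|det (Λ i (π j))| ≤ c`. So all these determinants are `0`. Let `δ = 1 / (2 n + 2)` and let `m` be from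
DIO. Put `w = ∏ i, u i ^ (m i).toNat * v i ^ (- m i).toNat` in `ℤ[X][X]` and `x j = w(T, θ j)` in `B`:
`x j = ∏ i, (y i j) ^ (m i)` in `Ω`, `log ‖s t (x j)‖ = ∑ m i log ‖s t (y i j)‖` (as
`s t (z i j) = (s t (y i j))⁻¹`), and divided by `log t` it tends to `∑ m i Λ i j < δ`; so
`‖s t (x j)‖ ≤ t ^ δ` for `t` in a set of `𝒰`. By GRO all `x j` are algebraic over `ℚ`, so `m = 0`
by the hypothesis, a contradiction. -/
def FriStmt : Prop := SphStmt → SpfStmt → BndStmt → GroConcl → DioConcl →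
  ∀ (Ω : Type) [Field Ω] [CharZero Ω] (T : Ω), Transcendental ℚ T → ∀ (r n : ℕ) (f : ℤ[X][X])
  (u v b : Fin r → ℤ[X][X]) (θ : Fin n → Ω), Function.Injective θ → f.Monic →
  spr f T = ∏ j, (X - C (θ j)) → (∀ i, u i * v i = 1 + f * b i) →
  (∀ m : Fin r → ℤ, (∀ j, IsAlgebraic ℚ (∏ i, (spr (u i) T).eval (θ j) ^ m i)) → m = 0) →
  FullRank f u

/-- The conclusion of FRI. -/
def FriConcl : Prop :=
  ∀ (Ω : Type) [Field Ω] [CharZero Ω] (T : Ω), Transcendental ℚ T → ∀ (r n : ℕ) (f : ℤ[X][X])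
  (u v b : Fin r → ℤ[X][X]) (θ : Fin n → Ω), Function.Injective θ → f.Monic →
  spr f T = ∏ j, (X - C (θ j)) → (∀ i, u i * v i = 1 + f * b i) →
  (∀ m : Fin r → ℤ, (∀ j, IsAlgebraic ℚ (∏ i, (spr (u i) T).eval (θ j) ^ m i)) → m = 0) →
  FullRank f u

/-- FRU (100 lines). Full rank for families with an irreducible member and generic units.
PROOF. `f` is irreducible (hypothesis). `Ind` gives `Ω`, `T`, `Θ`; SPL gives `Ω'`, `ι`, `θ` with
different roots `θ j` of `f(ι T, Y)`. If `n = 0` then `f = 1` has no root, so let `n > 0`. If `m` is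
such that `∏ u i (ι T, θ j) ^ (m i)` is algebraic for all `j`, e.g. for `j = 0`, then by CNJ (from
`Ω'`, `ι T`, `θ 0` to `Ω`, `T`, `Θ`) so is `∏ u i (T, Θ) ^ (m i)` and `m = 0`. Apply FRI. -/
def FruStmt : Prop := SplStmt → CnjStmt → FriConcl → ∀ (r : ℕ) (f : ℤ[X][X])
  (u v b : Fin r → ℤ[X][X]), f.Monic → Irreducible f → (∀ i, u i * v i = 1 + f * b i) →
  Ind f u → FullRank f u

/-- The conclusion of FRU. -/
def FruConcl : Prop := ∀ (r : ℕ) (f : ℤ[X][X])
  (u v b : Fin r → ℤ[X][X]), f.Monic → Irreducible f → (∀ i, u i * v i = 1 + f * b i) →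
  Ind f u → FullRank f u

/-- NM1 (150 lines). Families with many members in which `w` is a unit.
PROOF. `K = 2 n (D + D ^ 2)`. Let `g` be from CHG for `R = ℤ[X]`, `F a` = the polynomials of degree
at most `a`, and `a = g.coeff 0`, of degree at most `n (D + D ^ 2)`. For `t` in the set:
`a(t) ^ 2 = 1` by NEX for `sp f t`, `sp w t`: if `(sp f t).map = ∏ (X - θ' j)` with `θ'` injective
(`φ : ℤ[X] → ℂ`, `φ X = t`), then `g.map φ = ∏ (X - w(t, θ' j))` and the constant coefficient is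
`a(t) = (-1) ^ n ∏ w(t, θ' j)`. The set has more than `K` elements, so the polynomial
`a ^ 2 - 1` of degree at most `K` is zero. UNT. -/
def Nm1Stmt : Prop := ChgStmt → UntStmt → NexStmt → ∀ (n D : ℕ) (f w : ℤ[X][X]), f.Monic →
  f.natDegree = n → (∀ j, (f.coeff j).natDegree ≤ D) → w.natDegree ≤ D →
  (∀ j, (w.coeff j).natDegree ≤ D) →
  (2 * (n * (D + D * D)) : ℕ) < {t : ℤ | ∃ (K : Type) (_ : Field K) (_ : NumberField K) (θ : 𝓞 K),
    aeval θ (sp f t) = 0 ∧ IntermediateField.adjoin ℚ {(θ : K)} = ⊤ ∧ Module.finrank ℚ K = n ∧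
    IsUnit (aeval θ (sp w t))}.encard →
  ∃ v b : ℤ[X][X], w * v = 1 + f * b

/-- The conclusion of NM1. -/
def Nm1Concl : Prop := ∀ (n D : ℕ) (f w : ℤ[X][X]), f.Monic →
  f.natDegree = n → (∀ j, (f.coeff j).natDegree ≤ D) → w.natDegree ≤ D →
  (∀ j, (w.coeff j).natDegree ≤ D) →
  (2 * (n * (D + D * D)) : ℕ) < {t : ℤ | ∃ (K : Type) (_ : Field K) (_ : NumberField K) (θ : 𝓞 K),
    aeval θ (sp f t) = 0 ∧ IntermediateField.adjoin ℚ {(θ : K)} = ⊤ ∧ Module.finrank ℚ K = n ∧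
    IsUnit (aeval θ (sp w t))}.encard →
  ∃ v b : ℤ[X][X], w * v = 1 + f * b

/-- The theorem for one-parameter families. -/
def InmConcl : Prop := ∀ (p : ℕ) [Fact p.Prime] (n r D : ℕ), ∃ K : ℕ,
  ∀ (f : ℤ[X][X]) (u : Fin r → ℤ[X][X]), Fam n D f u → Ind f u →
    {t : ℤ | Exceptional p f u t}.encard ≤ K

/-- INM (60 lines). One-parameter families with independent units.
PROOF. Let `K₀` be the bound of `LUB.MainStmt` and `K = max K₀ (2 n (D + D ^ 2))`. If the
exceptional set has more than `K` elements, then all `u i` are units modulo `f` (NM1; an exceptional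
`t` is in the set of NM1), `f` is irreducible (IRR for `φ = evalRingHom t`), so `FullRank` holds
(FRU) and `MainStmt` gives a contradiction. -/
def InmStmt : Prop := MainStmt → IrrStmt → FruConcl → Nm1Concl → InmConcl

/-- The conclusion of LNI. -/
def LniConcl : Prop := ∀ (p : ℕ) [Fact p.Prime] (n r D : ℕ), ∃ B : ℕ,
  ∀ (f : (MvPolynomial (Fin 2) ℤ)[X]) (u : Fin r → (MvPolynomial (Fin 2) ℤ)[X]), Fam2 n D f u →
  ∀ A : Set (Fin 2 → ℤ), LineInd f u A → ∀ G : MvPolynomial (Fin 2) ℚ, G.totalDegree = 1 →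
  {P : Fin 2 → ℤ | P ∈ A ∧ MvPolynomial.eval (fun i => (P i : ℚ)) G = 0 ∧
    ExcPt p n (spr2 f P) (fun i => spr2 (u i) P)}.encard ≤ B

/-- LNI (150 lines). Exceptional points on lines. The proof is the one of LNB (helper90) with
`InmConcl`, `LineInd`, `Ind` instead of `MainStmt`, `LineFull`, `FullRank`. -/
def LniStmt : Prop := InmConcl → LniConcl

/-- The conclusion of CRG. -/
def CrgConcl : Prop := ∀ (d b : ℕ) (ε : ℝ), 0 < ε → ∃ B : ℝ, ∀ E : Set (Fin 2 → ℤ),
  (∀ G : MvPolynomial (Fin 2) ℚ, G.totalDegree = 1 →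
    {P : Fin 2 → ℤ | P ∈ E ∧ MvPolynomial.eval (fun i => (P i : ℚ)) G = 0}.encard ≤ b) →
  ∀ Φ : MvPolynomial (Fin 2) ℤ, Φ ≠ 0 → Φ.totalDegree ≤ d → ∀ (lo : Fin 2 → ℤ) (N : ℕ), 1 ≤ N →
  (({P : Fin 2 → ℤ | P ∈ E ∧ (∀ i, lo i ≤ P i ∧ P i < lo i + N) ∧
    MvPolynomial.eval P Φ = 0}).ncard : ℝ) ≤ B * (N : ℝ) ^ (1 / 2 + ε)

/-- CRG (150 lines). Sets with few points on lines have few points on curves.
PROOF. Translate by `lo`: `E' = {P | P + lo ∈ E}` and `Φ' = Φ(X + lo)` (not zero, of the same total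
degree; lines go to lines) satisfy the same hypotheses, and the points of the square become the
points `0 ≤ P i < N`, so `|P i| ≤ N`. Then as in row CUR (helper1): over `ℚ` the polynomial `Φ'` is
associated to a product of at most `d` irreducible polynomials of total degree between `1` and
`d`; for those of total degree one use the hypothesis, for the others BPB. -/
def CrgStmt : Prop := BpbConcl → CrgConcl

/-- NM2 (STRONG, 200 lines). The norms in a two-parameter family.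
PROOF. `d = 2 n (D + D ^ 2)`. For every `i` let `g i` be from CHG for `R = MvPolynomial (Fin 2) ℤ`,
`F a` = the polynomials of total degree at most `a`, `w = u i`, and `a i = (g i).coeff 0`. For an
exceptional point `P`: `(a i)(P) ^ 2 = 1` by NEX for `spr2 f P`, `spr2 (u i) P` (as in NM1, with
`φ : MvPolynomial (Fin 2) ℤ → ℂ` the evaluation at `P`). If some `a i ^ 2 - 1` is not zero take it
for `Φ`. Otherwise UNT gives `v i`, `b i`. -/
def Nm2Stmt : Prop := ChgStmt → UntStmt → NexStmt → ∀ (n r D : ℕ)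
  (f : (MvPolynomial (Fin 2) ℤ)[X]) (u : Fin r → (MvPolynomial (Fin 2) ℤ)[X]), Fam2 n D f u →
  (∃ Φ : MvPolynomial (Fin 2) ℤ, Φ ≠ 0 ∧ Φ.totalDegree ≤ 2 * (n * (D + D * D)) ∧
    ∀ (p : ℕ) [Fact p.Prime] (P : Fin 2 → ℤ), ExcPt p n (spr2 f P) (fun i => spr2 (u i) P) →
      MvPolynomial.eval P Φ = 0) ∨
  ∃ v b : Fin r → (MvPolynomial (Fin 2) ℤ)[X], ∀ i, u i * v i = 1 + f * b i

/-- The conclusion of NM2. -/
def Nm2Concl : Prop := ∀ (n r D : ℕ)
  (f : (MvPolynomial (Fin 2) ℤ)[X]) (u : Fin r → (MvPolynomial (Fin 2) ℤ)[X]), Fam2 n D f u →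
  (∃ Φ : MvPolynomial (Fin 2) ℤ, Φ ≠ 0 ∧ Φ.totalDegree ≤ 2 * (n * (D + D * D)) ∧
    ∀ (p : ℕ) [Fact p.Prime] (P : Fin 2 → ℤ), ExcPt p n (spr2 f P) (fun i => spr2 (u i) P) →
      MvPolynomial.eval P Φ = 0) ∨
  ∃ v b : Fin r → (MvPolynomial (Fin 2) ℤ)[X], ∀ i, u i * v i = 1 + f * b i

/-- The main theorem with the algebraic condition. -/
def In2Concl : Prop := ∀ (p : ℕ) [Fact p.Prime] (n r D : ℕ) (ε : ℝ), 0 < ε → ∃ B : ℝ,
  ∀ (f : (MvPolynomial (Fin 2) ℤ)[X]) (u : Fin r → (MvPolynomial (Fin 2) ℤ)[X]), Fam2 n D f u →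
  ∀ A : Set (Fin 2 → ℤ), LineInd f u A → ∀ (lo : Fin 2 → ℤ) (N : ℕ), 1 ≤ N →
  (({P : Fin 2 → ℤ | P ∈ A ∧ (∀ i, lo i ≤ P i ∧ P i < lo i + N) ∧
    ExcPt p n (spr2 f P) (fun i => spr2 (u i) P)}).ncard : ℝ) ≤ B * (N : ℝ) ^ (1 / 2 + ε)

/-- IN2 (120 lines). Two-parameter families with independent units.
PROOF. `B = max B₁ B₂`, `B₁` from `UpwStmt`, `B₂` from CRG for `d = 2 n (D + D ^ 2)` and `b` from LNI.
Let `E` be the set of the exceptional points of `A`. NM2: (1) a polynomial `Φ`; apply CRG to `E`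
(LNI gives the hypothesis on lines). (2) `v`, `b`. Then `LineFull f u E`: for `P ∈ E`, `v' ≠ 0` the
family `res f P v'` is monic, it is irreducible (IRR for `R = ℤ[X]`, `φ = evalRingHom 0`:
`(res f P v').map φ = spr2 f P` has the root `θ` of the exceptional field), the `res (u i) P v'`
are units modulo `res f P v'` (apply the ring homomorphism to `u i * v i = 1 + f * b i`), and they
are independent (`LineInd`), so `FullRank` holds by FRU. Apply `UpwStmt` to `E`. -/
def In2Stmt : Prop := UpwStmt → IrrStmt → FruConcl → LniConcl → CrgConcl → Nm2Concl → In2Concl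

end Pool.Agent.LPW
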